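import Pool.Agent.N597.CT.LPw
import Pool.Agent.Helper448.Warren

set_option autoImplicit false

/-!
# The number of patterns of tableaux
-/

namespace Pool.Agent.N597.CT

open Matrix Function MvPolynomial

variable {m n : ℕ}

/-- The generic minor. -/
noncomputable def pm (m n : ℕ) (β : Option (Fin m) → Kol (Vr m n)) : MvPolynomial (Id3 m n) ℝ :=
  (Matrix.of fun i j => wL (fun k => (X k : MvPolynomial (Id3 m n) ℝ)) i (β j)).det

lemma deg_entry (i : Option (Fin m)) (y : Kol (Vr m n)) :
    (wL (fun k => (X k : MvPolynomial (Id3 m n) ℝ)) i y).totalDegree ≤ 1 := by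
  rcases i with _ | r <;> rcases y with _ | _ | r' | _ | c
  · simp [wL]
  · simp [wL]
  · simp [wL]
  · simp only [wL, totalDegree_neg]
    refine (totalDegree_finset_sum _ _).trans ?_
    exact Finset.sup_le fun c _ => (totalDegree_X _).le
  · simp [wL]
  · simp [wL]
  · simp [wL]
  · simp only [wL]
    split_ifs <;> simp
  · simp only [wL]
    refine (totalDegree_finset_sum _ _).trans ?_
    exact Finset.sup_le fun c _ => (totalDegree_X _).le
  · simp [wL]

lemma deg_pm (β : Option (Fin m) → Kol (Vr m n)) : (pm m n β).totalDegree ≤ m + 1 := by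
  unfold pm
  rw [det_apply]
  apply (totalDegree_finset_sum _ _).trans
  apply Finset.sup_le
  intro σ _
  refine (totalDegree_smul_le _ _).trans ?_
  refine (totalDegree_finsetProd _ _).trans ?_
  refine (Finset.sum_le_sum fun i _ => deg_entry _ _).trans ?_
  simp

lemma eval_pm (x : Id3 m n → ℝ) (β : Option (Fin m) → Kol (Vr m n)) :
    eval x (pm m n β) = dd (wL x) β := by
  unfold pm dd
  rw [RingHom.map_det]
  congr 1
  ext i j
  simp only [RingHom.mapMatrix_apply, map_apply, of_apply]
  rcases i with _ | r <;> rcases β j with _ | _ | r' | _ | c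
  · simp [wL]
  · simp [wL]
  · simp [wL]
  · simp [wL]
  · simp [wL]
  · simp [wL]
  · simp [wL]
  · simp only [wL]
    split_ifs <;> simp
  · simp [wL]
  · simp [wL]

open Classical in
/-- A tuple that lists the elements of the set. -/
noncomputable def tup (m n : ℕ) (S : Finset (Kol (Vr m n))) : Option (Fin m) → Kol (Vr m n) :=
  if h : Nonempty (Option (Fin m) ≃ S) then fun i => (h.some i : Kol (Vr m n)) else fun _ => none

open Classical in
lemma tup_sign (β : Option (Fin m) → Kol (Vr m n)) : ∃ e : SignType, ∀ x : Id3 m n → ℝ,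
    SignType.sign (dd (wL x) β) =
      e * SignType.sign (dd (wL x) (tup m n (Finset.univ.image β))) := by
  by_cases hinj : Injective β
  · set S := Finset.univ.image β with hS
    have hmem : ∀ i, β i ∈ S := fun i => by simp [hS]
    set f : Option (Fin m) → S := fun i => ⟨β i, hmem i⟩ with hf
    have hbij : Bijective f := by
      constructor
      · intro i j hij
        apply hinj
        simpa [hf] using hij
      · rintro ⟨y, hy⟩
        rw [hS, Finset.mem_image] at hy
        obtain ⟨i, -, hi⟩ := hy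
        exact ⟨i, Subtype.ext hi⟩
    have h : Nonempty (Option (Fin m) ≃ S) := ⟨Equiv.ofBijective f hbij⟩
    set π : Equiv.Perm (Option (Fin m)) := (Equiv.ofBijective f hbij).trans h.some.symm with hπ
    have hβ : β = tup m n S ∘ π := by
      ext1 i
      unfold tup
      rw [dif_pos h]
      simp only [Function.comp_apply, hπ, Equiv.trans_apply, Equiv.apply_symm_apply]
      rfl
    refine ⟨SignType.sign (((Equiv.Perm.sign π : ℤ) : ℝ)), fun x => ?_⟩
    conv_lhs => rw [hβ]
    rw [dd_perm, sign_mul]
  · refine ⟨0, fun x => ?_⟩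
    rw [zero_mul, sign_eq_zero_iff]
    by_contra h
    exact hinj (inj_of_ne _ _ h)

/-- The pattern of an input: the signs of all tableaux. -/
noncomputable def chi (m n : ℕ) (x : Id3 m n → ℝ) :
    (Fin m → Vr m n) → Option (Fin m) → Kol (Vr m n) → SignType :=
  fun β => star (wL x) β

/-- The exponent. -/
def pex (m n : ℕ) : ℕ := (2 * m + n + 6) * (m * n + m + n)

lemma sign_div' (a b : ℝ) : SignType.sign (a / b) = SignType.sign a * SignType.sign b := by
  rw [div_eq_mul_inv, sign_mul]
  congr 1
  rcases lt_trichotomy b 0 with h | h | h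
  · rw [sign_neg h, sign_neg (inv_lt_zero.2 h)]
  · rw [h, _root_.inv_zero]
  · rw [sign_pos h, sign_pos (inv_pos.2 h)]

open Classical in
theorem ncard_chi_le (m n : ℕ) : (Set.range (chi m n)).ncard ≤ 2 ^ pex m n := by
  have hw := Pool.Agent.Helper448.Warren.ncard_sign_patterns_le
    (fun S : Finset (Kol (Vr m n)) => pm m n (tup m n S)) (m + 1) (fun S => deg_pm _)
  choose e he using tup_sign (m := m) (n := n)
  set Ψ : (Id3 m n → ℝ) → Finset (Kol (Vr m n)) → SignType :=
    fun x S => SignType.sign (eval x (pm m n (tup m n S))) with hΨ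
  set F : (Finset (Kol (Vr m n)) → SignType) →
      ((Fin m → Vr m n) → Option (Fin m) → Kol (Vr m n) → SignType) :=
    fun ψ β i y => (e (update (ext β) i y) * ψ (Finset.univ.image (update (ext β) i y))) *
      (e (ext β) * ψ (Finset.univ.image (ext β))) with hF
  have hrange : Set.range (chi m n) = F '' Set.range Ψ := by
    rw [← Set.range_comp]
    congr 1
    ext1 x
    ext1 β
    ext1 i
    ext1 y
    show SignType.sign (tb (wL x) (ext β) i y) = _
    unfold tb
    rw [sign_div', he (update (ext β) i y) x, he (ext β) x]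
    simp only [Function.comp_apply, hF, hΨ, eval_pm]
  rw [hrange]
  refine (Set.ncard_image_le (Set.toFinite _)).trans (hw.trans ?_)
  have hc : Fintype.card (Finset (Kol (Vr m n))) = 2 ^ (m + n + 3) := by
    simp [Fintype.card_option, add_assoc]
  have hI : Fintype.card (Id3 m n) = m * n + m + n := by
    simp [add_assoc]
  rw [hc, hI]
  unfold pex
  rw [pow_mul]
  apply Nat.pow_le_pow_left
  have e2 : m + 1 ≤ 2 ^ m := Nat.lt_two_pow_self
  have e3 : 1 ≤ 2 ^ (m + n + 3) := Nat.one_le_two_pow
  calc 4 * 2 ^ (m + n + 3) * (m + 1) + 2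
      ≤ 4 * 2 ^ (m + n + 3) * (m + 1) + 2 * 2 ^ (m + n + 3) * (m + 1) := by
        have : 1 ≤ 2 ^ (m + n + 3) * (m + 1) := Nat.one_le_iff_ne_zero.2 (by positivity)
        have h2 : 2 * 2 ^ (m + n + 3) * (m + 1) = 2 * (2 ^ (m + n + 3) * (m + 1)) := by ring
        omega
    _ ≤ 8 * 2 ^ (m + n + 3) * (m + 1) := by
        have h2 : 0 ≤ 2 ^ (m + n + 3) * (m + 1) := Nat.zero_le _
        nlinarith
    _ ≤ 8 * 2 ^ (m + n + 3) * 2 ^ m := Nat.mul_le_mul_left _ e2
    _ = 2 ^ (2 * m + n + 6) := by
        have e8 : (8 : ℕ) = 2 ^ 3 := by norm_num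
        rw [e8, ← pow_add, ← pow_add]
        congr 1
        ring

end Pool.Agent.N597.CT
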