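import Pool.Agent.N597.CT.Cnt

set_option autoImplicit false

/-!
# A second bound for the number of patterns of tableaux
-/

namespace Pool.Agent.N597.CT

open Matrix Function MvPolynomial

variable {m n : ℕ}

/-- The degree of a column. -/
def cdeg : Kol (Vr m n) → ℕ
  | none => 1
  | some none => 0
  | some (some (.inl _)) => 0
  | some (some (.inr _)) => 1

lemma deg_entry' (i : Option (Fin m)) (y : Kol (Vr m n)) :
    (wL (fun k => (X k : MvPolynomial (Id3 m n) ℝ)) i y).totalDegree ≤ cdeg y := by
  rcases y with _ | _ | r' | o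
  · exact deg_entry i none
  · rcases i with _ | r <;> simp [wL, cdeg]
  · rcases i with _ | r
    · simp [wL, cdeg]
    · simp only [wL, cdeg]
      split_ifs <;> simp
  · exact deg_entry i _

open Classical in
lemma card_cdeg (m n : ℕ) :
    (Finset.univ.filter fun y : Kol (Vr m n) => cdeg y = 1).card ≤ n + 2 := by
  have : (Finset.univ.filter fun y : Kol (Vr m n) => cdeg y = 1) ⊆
      insert none ((Finset.univ : Finset (Option (Fin n))).image
        fun o => (some (some (.inr o)) : Kol (Vr m n))) := by
    intro y hy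
    rw [Finset.mem_filter] at hy
    rcases y with _ | _ | r' | o
    · simp
    · exact absurd hy.2 (by simp [cdeg])
    · exact absurd hy.2 (by simp [cdeg])
    · simp
  refine (Finset.card_le_card this).trans ((Finset.card_insert_le _ _).trans ?_)
  have h := Finset.card_image_le (s := (Finset.univ : Finset (Option (Fin n))))
    (f := fun o => (some (some (.inr o)) : Kol (Vr m n)))
  simp only [Finset.card_univ, Fintype.card_option, Fintype.card_fin] at h
  omega

open Classical in
lemma deg_pm' (β : Option (Fin m) → Kol (Vr m n)) (hβ : Injective β) :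
    (pm m n β).totalDegree ≤ min (m + 1) (n + 2) := by
  refine le_min (deg_pm β) ?_
  unfold pm
  rw [det_apply]
  apply (totalDegree_finset_sum _ _).trans
  apply Finset.sup_le
  intro σ _
  refine (totalDegree_smul_le _ _).trans ?_
  refine (totalDegree_finsetProd _ _).trans ?_
  refine (Finset.sum_le_sum fun i _ => deg_entry' _ _).trans ?_
  have h1 : ∀ y : Kol (Vr m n), cdeg y = if cdeg y = 1 then 1 else 0 := by
    intro y
    rcases y with _ | _ | r' | o <;> simp [cdeg]
  calc ∑ i, cdeg (β i) = ∑ i, if cdeg (β i) = 1 then 1 else 0 :=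
        Finset.sum_congr rfl fun i _ => h1 _
    _ = (Finset.univ.filter fun i => cdeg (β i) = 1).card := by
        rw [Finset.card_filter]
    _ = ((Finset.univ.filter fun i => cdeg (β i) = 1).image β).card :=
        (Finset.card_image_of_injective _ hβ).symm
    _ ≤ (Finset.univ.filter fun y : Kol (Vr m n) => cdeg y = 1).card := by
        apply Finset.card_le_card
        intro y hy
        rw [Finset.mem_image] at hy
        obtain ⟨i, hi, rfl⟩ := hy
        rw [Finset.mem_filter] at hi ⊢
        exact ⟨Finset.mem_univ _, hi.2⟩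
    _ ≤ n + 2 := card_cdeg m n

/-- Sets of `m + 1` columns. -/
abbrev Cs (m n : ℕ) := {S : Finset (Kol (Vr m n)) // S.card = m + 1}

lemma cs_equiv (S : Cs m n) : Nonempty (Option (Fin m) ≃ S.1) := by
  refine ⟨Fintype.equivOfCardEq ?_⟩
  rw [Fintype.card_coe, S.2]
  simp

/-- A tuple that lists the elements of the set. -/
noncomputable def tup' (m n : ℕ) (S : Cs m n) : Option (Fin m) → Kol (Vr m n) :=
  fun i => ((cs_equiv S).some i : Kol (Vr m n))

lemma tup'_inj (S : Cs m n) : Injective (tup' m n S) := by
  intro i j h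
  exact (cs_equiv S).some.injective (Subtype.ext h)

open Classical in
lemma tup'_sign (β : Option (Fin m) → Kol (Vr m n)) : ∃ (e : SignType) (S : Cs m n),
    ∀ x : Id3 m n → ℝ, SignType.sign (dd (wL x) β) =
      e * SignType.sign (dd (wL x) (tup' m n S)) := by
  by_cases hinj : Injective β
  · set S : Cs m n := ⟨Finset.univ.image β, by
      rw [Finset.card_image_of_injective _ hinj]
      simp⟩ with hS
    have hmem : ∀ i, β i ∈ S.1 := fun i => by simp [hS]
    set f : Option (Fin m) → S.1 := fun i => ⟨β i, hmem i⟩ with hf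
    have hbij : Bijective f := by
      constructor
      · intro i j hij
        apply hinj
        simpa [hf] using hij
      · rintro ⟨y, hy⟩
        rw [hS, Finset.mem_image] at hy
        obtain ⟨i, -, hi⟩ := hy
        exact ⟨i, Subtype.ext hi⟩
    set π : Equiv.Perm (Option (Fin m)) :=
      (Equiv.ofBijective f hbij).trans (cs_equiv S).some.symm with hπ
    have hβ : β = tup' m n S ∘ π := by
      ext1 i
      unfold tup'
      simp only [Function.comp_apply, hπ, Equiv.trans_apply, Equiv.apply_symm_apply]
      rfl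
    refine ⟨SignType.sign (((Equiv.Perm.sign π : ℤ) : ℝ)), S, fun x => ?_⟩
    conv_lhs => rw [hβ]
    rw [dd_perm, sign_mul]
  · refine ⟨0, ⟨Finset.univ.image (ext (b0 m n)), ?_⟩, fun x => ?_⟩
    · rw [Finset.card_image_of_injective]
      · simp
      · exact inj_of_ne (wL (fun _ => (0 : ℝ))) _ (by rw [dd_base]; exact one_ne_zero)
    · rw [zero_mul, sign_eq_zero_iff]
      by_contra h
      exact hinj (inj_of_ne _ _ h)

/-- The second exponent. -/
def pex2 (m n : ℕ) : ℕ :=
  (min (m + 1) (n + 2) * (Nat.log 2 (m + n) + 3) + 3) * (m * n + m + n)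

open Classical in
theorem ncard_chi_le2 (m n : ℕ) (hmn : 2 ≤ m + n) :
    (Set.range (chi m n)).ncard ≤ 2 ^ pex2 m n := by
  have hw := Pool.Agent.Helper448.Warren.ncard_sign_patterns_le
    (fun S : Cs m n => pm m n (tup' m n S)) (min (m + 1) (n + 2))
    (fun S => deg_pm' _ (tup'_inj S))
  choose e S he using tup'_sign (m := m) (n := n)
  set Ψ : (Id3 m n → ℝ) → Cs m n → SignType :=
    fun x S => SignType.sign (eval x (pm m n (tup' m n S))) with hΨ
  set F : (Cs m n → SignType) →
      ((Fin m → Vr m n) → Option (Fin m) → Kol (Vr m n) → SignType) :=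
    fun ψ β i y => (e (update (ext β) i y) * ψ (S (update (ext β) i y))) *
      (e (ext β) * ψ (S (ext β))) with hF
  have hrange : Set.range (chi m n) = F '' Set.range Ψ := by
    rw [← Set.range_comp]
    congr 1
    ext1 x
    ext1 β
    ext1 i
    ext1 y
    show SignType.sign (tb (wL x) (ext β) i y) = _
    unfold tb
    rw [sign_div', he (update (ext β) i y) x, he (ext β) x]
    simp only [Function.comp_apply, hF, hΨ, eval_pm]
  rw [hrange]
  refine (Set.ncard_image_le (Set.toFinite _)).trans (hw.trans ?_)
  have hI : Fintype.card (Id3 m n) = m * n + m + n := by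
    simp [add_assoc]
  have hcK : Fintype.card (Kol (Vr m n)) = m + n + 3 := by
    simp only [Fintype.card_option, Fintype.card_sum, Fintype.card_fin]
    omega
  have hc : Fintype.card (Cs m n) = (m + n + 3).choose (m + 1) := by
    rw [← hcK, ← Fintype.card_finset_len]
  set k := min (m + 1) (n + 2) with hk
  set g := Nat.log 2 (m + n) with hg
  have hg1 : 1 ≤ g := by
    rw [hg]
    exact Nat.log_pos (by norm_num) hmn
  have hN : m + n + 3 ≤ 2 ^ (g + 2) := by
    have h1 : m + n < 2 ^ (g + 1) := Nat.lt_pow_succ_log_self (by norm_num) _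
    have h2 : 2 ^ (g + 2) = 2 * 2 ^ (g + 1) := by ring
    have h3 : 4 ≤ 2 ^ (g + 1) := by
      calc 4 = 2 ^ 2 := by norm_num
        _ ≤ 2 ^ (g + 1) := Nat.pow_le_pow_right (by norm_num) (by omega)
    omega
  have hcle : (m + n + 3).choose (m + 1) ≤ (2 ^ (g + 2)) ^ k := by
    have h1 : (m + n + 3).choose (m + 1) ≤ (m + n + 3) ^ (m + 1) := Nat.choose_le_pow _ _
    have h2 : (m + n + 3).choose (m + 1) ≤ (m + n + 3) ^ (n + 2) := by
      have : (m + n + 3).choose (m + 1) = (m + n + 3).choose (n + 2) := by
        rw [← Nat.choose_symm (by omega : m + 1 ≤ m + n + 3)]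
        congr 1
        omega
      rw [this]
      exact Nat.choose_le_pow _ _
    have h3 : (m + n + 3).choose (m + 1) ≤ (m + n + 3) ^ k := by
      rcases le_total (m + 1) (n + 2) with h | h
      · rw [hk, min_eq_left h]; exact h1
      · rw [hk, min_eq_right h]; exact h2
    exact h3.trans (Nat.pow_le_pow_left hN k)
  have hcpos : 1 ≤ (m + n + 3).choose (m + 1) := Nat.choose_pos (by omega)
  have hk1 : 1 ≤ k := by
    rw [hk]
    exact le_min (by omega) (by omega)
  rw [hc, hI]
  unfold pex2
  rw [pow_mul]
  apply Nat.pow_le_pow_left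
  have e2 : k ≤ 2 ^ k := Nat.lt_two_pow_self.le
  set K := (m + n + 3).choose (m + 1) with hK
  have h5 : 1 ≤ K * k := Nat.mul_pos hcpos hk1
  calc 4 * K * k + 2 ≤ 8 * (K * k) := by
        have : 4 * K * k = 4 * (K * k) := by ring
        omega
    _ ≤ 8 * ((2 ^ (g + 2)) ^ k * 2 ^ k) :=
        Nat.mul_le_mul_left _ (Nat.mul_le_mul hcle e2)
    _ = 2 ^ (k * (g + 3) + 3) := by
        have e8 : (8 : ℕ) = 2 ^ 3 := by norm_num
        rw [e8, ← pow_mul, ← pow_add, ← pow_add]
        congr 1
        ring

end Pool.Agent.N597.CT
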