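import Pool.Agent.H558R2.Slp

set_option autoImplicit false

/-!
# Building computation trees

`Sol Spec X G c`: some computation tree, started with the values of the functions in `G` as
results, runs correctly with at most `c` steps on all inputs in `X`.
-/

namespace Pool.Agent.N597.CT

open Pool.Agent.H558R2

variable {κ : Type}

/-- `h` can be used as an operand on the inputs in `X`. -/
def AvX (X : Set (κ → ℝ)) (G : List (Fn κ)) (h : Fn κ) : Prop :=
  ∃ u : Operand κ, ∀ x ∈ X, u.value x (G.map fun g => g x) = some (h x)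

lemma AvX.mono {X Y : Set (κ → ℝ)} {G : List (Fn κ)} {h : Fn κ} (H : AvX X G h) (hY : Y ⊆ X) :
    AvX Y G h := by
  obtain ⟨u, hu⟩ := H
  exact ⟨u, fun x hx => hu x (hY hx)⟩

lemma AvX.append {X : Set (κ → ℝ)} {G : List (Fn κ)} {h : Fn κ} (H : AvX X G h)
    (G' : List (Fn κ)) : AvX X (G ++ G') h := by
  obtain ⟨u, hu⟩ := H
  refine ⟨u, fun x hx => ?_⟩
  have := hu x hx
  cases u with
  | input k => exact this
  | zero => exact this
  | one => exact this
  | result j =>
    simp only [Operand.value] at this ⊢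
    rw [List.map_append, List.getElem?_append_left]
    · exact this
    · by_contra hlt
      rw [not_lt] at hlt
      rw [List.getElem?_eq_none hlt] at this
      exact absurd this (by simp)

lemma AvX.input (X : Set (κ → ℝ)) (G : List (Fn κ)) (k : κ) : AvX X G (fun x => x k) :=
  ⟨.input k, fun _ _ => rfl⟩

lemma AvX.zero (X : Set (κ → ℝ)) (G : List (Fn κ)) (h : Fn κ) (hh : ∀ x ∈ X, h x = 0) :
    AvX X G h :=
  ⟨.zero, fun x hx => by rw [hh x hx]; rfl⟩

lemma AvX.one (X : Set (κ → ℝ)) (G : List (Fn κ)) (h : Fn κ) (hh : ∀ x ∈ X, h x = 1) :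
    AvX X G h :=
  ⟨.one, fun x hx => by rw [hh x hx]; rfl⟩

lemma AvX.congr {X : Set (κ → ℝ)} {G : List (Fn κ)} {h h' : Fn κ} (H : AvX X G h)
    (e : ∀ x ∈ X, h' x = h x) : AvX X G h' := by
  obtain ⟨u, hu⟩ := H
  exact ⟨u, fun x hx => by rw [hu x hx, e x hx]⟩

lemma AvX.last (X : Set (κ → ℝ)) (G : List (Fn κ)) (h : Fn κ) : AvX X (G ++ [h]) h := by
  refine ⟨.result G.length, fun x _ => ?_⟩
  simp [Operand.value]

/-- Some tree solves the task on `X`. -/
def Sol (Spec : (κ → ℝ) → Bool → List ℝ → Prop) (X : Set (κ → ℝ)) (G : List (Fn κ)) (c : ℕ) :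
    Prop :=
  ∃ T : CompTree κ, ∀ x ∈ X, ∃ ans nums steps,
    T.run x (G.map fun g => g x) = some (ans, nums, steps) ∧ Spec x ans nums ∧ steps ≤ c

variable {Spec : (κ → ℝ) → Bool → List ℝ → Prop}

lemma Sol.mono {X Y : Set (κ → ℝ)} {G : List (Fn κ)} {c c' : ℕ} (h : Sol Spec X G c)
    (hY : Y ⊆ X) (hc : c ≤ c') : Sol Spec Y G c' := by
  obtain ⟨T, hT⟩ := h
  refine ⟨T, fun x hx => ?_⟩
  obtain ⟨ans, nums, steps, h1, h2, h3⟩ := hT x (hY hx)
  exact ⟨ans, nums, steps, h1, h2, h3.trans hc⟩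

lemma Sol.empty {X : Set (κ → ℝ)} {G : List (Fn κ)} {c : ℕ} (h : ∀ x ∈ X, False) :
    Sol Spec X G c :=
  ⟨.answer true, fun x hx => (h x hx).elim⟩

lemma Sol.answer {X : Set (κ → ℝ)} {G : List (Fn κ)} (ans : Bool) {c : ℕ}
    (h : ∀ x ∈ X, Spec x ans (G.map fun g => g x)) : Sol Spec X G c :=
  ⟨.answer ans, fun x hx => ⟨ans, G.map fun g => g x, 0, rfl, h x hx, Nat.zero_le _⟩⟩

lemma Sol.arith {X : Set (κ → ℝ)} {G : List (Fn κ)} {c : ℕ} (o : Op) (f g h : Fn κ)
    (hf : AvX X G f) (hg : AvX X G g) (hd : o = .div → ∀ x ∈ X, g x ≠ 0)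
    (hh : ∀ x ∈ X, h x = o.eval (f x) (g x)) (H : Sol Spec X (G ++ [h]) c) :
    Sol Spec X G (c + 1) := by
  obtain ⟨T, hT⟩ := H
  obtain ⟨u, hu⟩ := hf
  obtain ⟨v, hv⟩ := hg
  refine ⟨.arith o u v T, fun x hx => ?_⟩
  obtain ⟨ans, nums, steps, h1, h2, h3⟩ := hT x hx
  refine ⟨ans, nums, steps + 1, ?_, h2, by omega⟩
  have hne : ¬ (o = Op.div ∧ g x = 0) := fun h' => hd h'.1 x hx h'.2
  rw [CompTree.run, hu x hx, hv x hx]
  simp only [hne, if_false]
  rw [List.map_append] at h1
  simp only [List.map_cons, List.map_nil] at h1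
  rw [hh x hx] at h1
  rw [h1]
  rfl

/-- Branching on the sign of an available number. -/
lemma Sol.sgn {X : Set (κ → ℝ)} {G : List (Fn κ)} {c : ℕ} (f : Fn κ) (hf : AvX X G f)
    (H : ∀ t : SignType, Sol Spec {x | x ∈ X ∧ SignType.sign (f x) = t} G c) :
    Sol Spec X G (c + 1) := by
  obtain ⟨u, hu⟩ := hf
  obtain ⟨Tn, hn⟩ := H (-1)
  obtain ⟨Tz, hz⟩ := H 0
  obtain ⟨Tp, hp⟩ := H 1
  refine ⟨.compare u .zero Tn Tz Tp, fun x hx => ?_⟩
  rw [CompTree.run, hu x hx]
  have hz0 : (Operand.zero : Operand κ).value x (G.map fun g => g x) = some 0 := rfl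
  rw [hz0]
  rcases lt_trichotomy (f x) 0 with h | h | h
  · obtain ⟨ans, nums, steps, h1, h2, h3⟩ := hn x ⟨hx, sign_neg h⟩
    refine ⟨ans, nums, steps + 1, ?_, h2, by omega⟩
    simp only [if_pos h, h1]
    rfl
  · obtain ⟨ans, nums, steps, h1, h2, h3⟩ := hz x ⟨hx, by rw [h, sign_zero]⟩
    refine ⟨ans, nums, steps + 1, ?_, h2, by omega⟩
    have hn' : ¬ f x < 0 := by rw [h]; exact lt_irrefl _
    simp only [if_neg hn', if_pos h, h1]
    rfl
  · obtain ⟨ans, nums, steps, h1, h2, h3⟩ := hp x ⟨hx, sign_pos h⟩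
    refine ⟨ans, nums, steps + 1, ?_, h2, by omega⟩
    simp only [if_neg (not_lt.2 h.le), if_neg h.ne', h1]
    rfl

/-- Branching on the signs of finitely many available numbers. -/
lemma Sol.signs {G : List (Fn κ)} {c : ℕ} (l : List (Fn κ)) : ∀ {X : Set (κ → ℝ)},
    (∀ f ∈ l, AvX X G f) →
    (∀ s : Fn κ → SignType, Sol Spec {x | x ∈ X ∧ ∀ f ∈ l, SignType.sign (f x) = s f} G c) →
    Sol Spec X G (c + l.length) := by
  classical
  induction l with
  | nil =>
    intro X _ H
    exact (H 1).mono (fun x hx => ⟨hx, by simp⟩) (by simp)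
  | cons f l ih =>
    intro X hav H
    rw [List.length_cons, ← add_assoc]
    refine Sol.sgn f (hav f (by simp)) fun t => ?_
    refine ih (fun g hg => (hav g (by simp [hg])).mono fun x hx => hx.1) fun s => ?_
    refine (H (Function.update s f t)).mono ?_ le_rfl
    rintro x ⟨⟨hx, ht⟩, hs⟩
    refine ⟨hx, fun g hg => ?_⟩
    by_cases hgf : g = f
    · subst hgf
      rw [Function.update_self, ht]
    · rw [Function.update_of_ne hgf]
      rcases List.mem_cons.1 hg with h | h
      · exact absurd h hgf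
      · exact hs g h

/-- Straight-line code: from `G` one gets `G ++ H` by `c` operations, on the inputs in `X`; all
new functions satisfy `P`. -/
def Blk (P : Fn κ → Prop) (X : Set (κ → ℝ)) (G : List (Fn κ)) (c : ℕ) (H : List (Fn κ)) : Prop :=
  (∀ g ∈ H, P g) ∧ ∀ (Spec : (κ → ℝ) → Bool → List ℝ → Prop) (c' : ℕ),
    Sol Spec X (G ++ H) c' → Sol Spec X G (c' + c)

variable {P : Fn κ → Prop}

lemma Blk.nil (X : Set (κ → ℝ)) (G : List (Fn κ)) : Blk P X G 0 [] :=
  ⟨by simp, fun Spec c' h => by simpa using h⟩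

lemma Blk.trans {X : Set (κ → ℝ)} {G H H' : List (Fn κ)} {c c' : ℕ} (h : Blk P X G c H)
    (h' : Blk P X (G ++ H) c' H') : Blk P X G (c + c') (H ++ H') := by
  refine ⟨?_, fun Spec d hs => ?_⟩
  · intro g hg
    rcases List.mem_append.1 hg with hg | hg
    · exact h.1 g hg
    · exact h'.1 g hg
  · have := h.2 Spec (d + c') (h'.2 Spec d (by rw [List.append_assoc]; exact hs))
    exact this.mono subset_rfl (by omega)

lemma Blk.op {X : Set (κ → ℝ)} {G : List (Fn κ)} (o : Op) (f g h : Fn κ)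
    (hf : AvX X G f) (hg : AvX X G g) (hd : o = .div → ∀ x ∈ X, g x ≠ 0)
    (hh : ∀ x ∈ X, h x = o.eval (f x) (g x)) (hP : P h) : Blk P X G 1 [h] :=
  ⟨fun g' hg' => by rw [List.mem_singleton.1 hg']; exact hP,
    fun Spec c' hs => Sol.arith o f g h hf hg hd hh hs⟩

/-- Computing a finite family of functions. -/
lemma Blk.fam {X : Set (κ → ℝ)} {G : List (Fn κ)} {α : Type*} (h : α → Fn κ) (c : ℕ)
    (l : List α) : (∀ a ∈ l, ∀ H : List (Fn κ),
      ∃ H', Blk P X (G ++ H) c H' ∧ AvX X (G ++ H ++ H') (h a)) →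
    ∃ H, Blk P X G (l.length * c) H ∧ ∀ a ∈ l, AvX X (G ++ H) (h a) := by
  induction l with
  | nil =>
    intro _
    exact ⟨[], by simpa using Blk.nil X G, by simp⟩
  | cons a l ih =>
    intro hstep
    obtain ⟨H, h1, h2⟩ := ih (fun b hb => hstep b (by simp [hb]))
    obtain ⟨H', h3, h4⟩ := hstep a (by simp) H
    refine ⟨H ++ H', ?_, ?_⟩
    · have := h1.trans h3
      rw [List.length_cons]
      have e : (l.length + 1) * c = l.length * c + c := by ring
      rw [e]
      exact this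
    · intro b hb
      rw [← List.append_assoc]
      rcases List.mem_cons.1 hb with h | h
      · rw [h]; exact h4
      · exact (h2 b h).append H'

/-- The last numbers computed. -/
lemma Blk.fam_out {X : Set (κ → ℝ)} {α : Type*} (h : α → Fn κ)
    (l : List α) : ∀ G : List (Fn κ), (∀ a ∈ l, ∀ H : List (Fn κ), Blk P X (G ++ H) 1 [h a]) →
    Blk P X G l.length (l.map h) := by
  induction l with
  | nil =>
    intro G _
    exact Blk.nil X G
  | cons a l ih =>
    intro G hstep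
    have h1 : Blk P X G 1 [h a] := by
      have := hstep a (by simp) []
      rwa [List.append_nil] at this
    have h2 := ih (G ++ [h a]) (fun b hb H => by
      rw [List.append_assoc]
      exact hstep b (by simp [hb]) ([h a] ++ H))
    have h3 := h1.trans h2
    rw [List.length_cons, List.map_cons, add_comm]
    exact h3

end Pool.Agent.N597.CT
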