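import Pool.Agent.N597.CT.Tab

set_option autoImplicit false

/-!
# Terminal tableaux

Let `σ` assign to every tuple `β` of variables a sign pattern of a tableau such that any two of
the patterns are realized by one common matrix. Then some pattern is terminal: it shows
optimality, primal infeasibility or dual infeasibility. (Least-index argument for the criss-cross
method.)
-/

namespace Pool.Agent.N597.CT

open Matrix Function

/-- Columns: `none` is the right-hand side, `some none` the column of the objective value,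
`some (some k)` the column of the variable `k`. -/
abbrev Kol (V : Type*) := Option (Option V)

variable {ι V : Type*} [Fintype ι] [DecidableEq ι]

/-- The tuple of columns that belongs to a tuple of basic variables. -/
def ext (β : ι → V) : Option ι → Kol V
  | none => some none
  | some i => some (some (β i))

lemma ext_update (β : ι → V) (i : ι) (k : V) :
    ext (update β i k) = update (ext β) (some i) (some (some k)) := by
  ext1 j
  rcases j with _ | j
  · simp [ext]
  · by_cases h : j = i
    · subst h
      simp [ext]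
    · simp [ext, h]

lemma inj_of_ext (w : Matrix (Option ι) (Kol V) ℝ) (β : ι → V) (h : dd w (ext β) ≠ 0) :
    Injective β := by
  intro i j hij
  have := inj_of_ne w (ext β) h (a₁ := some i) (a₂ := some j) (by simp [ext, hij])
  simpa using this

/-- The signs of the tableau. -/
noncomputable def star (w : Matrix (Option ι) (Kol V) ℝ) (β : ι → V) :
    Option ι → Kol V → SignType :=
  fun i x => SignType.sign (tb w (ext β) i x)

lemma star_nd (w : Matrix (Option ι) (Kol V) ℝ) (β : ι → V) :
    star w β none (some none) ≠ 0 ↔ dd w (ext β) ≠ 0 := by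
  unfold star
  rw [sign_ne_zero]
  constructor
  · intro h h2
    apply h
    unfold tb
    rw [h2, div_zero]
  · intro h
    have e : (some none : Kol V) = ext β none := rfl
    rw [e, tb_self w (ext β) h, if_pos rfl]
    exact one_ne_zero

lemma star_basic (w : Matrix (Option ι) (Kol V) ℝ) (β : ι → V) (h : dd w (ext β) ≠ 0) (i : ι)
    (k : V) (j : Option ι) (hk : β i = k) (hj : j ≠ some i) : tb w (ext β) j (some (some k)) = 0 := by
  have e : (some (some k) : Kol V) = ext β (some i) := by rw [← hk]; rfl
  rw [e, tb_self w (ext β) h, if_neg hj]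

section Pair

variable (w : Matrix (Option ι) (Kol V) ℝ) (β γ : ι → V) (rk : V → ℕ) (T : V)

lemma orth_row (hβ : dd w (ext β) ≠ 0) (hγ : dd w (ext γ) ≠ 0) (i : ι) (x : Kol V) :
    tb w (ext γ) (some i) x =
      ∑ j, tb w (ext β) (some j) x * tb w (ext γ) (some i) (some (some (β j))) := by
  rw [tb_orth w (ext β) (ext γ) hβ, Fintype.sum_option]
  have : ext β none = ext γ none := rfl
  rw [this, tb_self w (ext γ) hγ, if_neg (by simp), mul_zero, zero_add]
  rfl

lemma orth_obj (hβ : dd w (ext β) ≠ 0) (hγ : dd w (ext γ) ≠ 0) (x : Kol V) :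
    tb w (ext γ) none x = tb w (ext β) none x +
      ∑ j, tb w (ext β) (some j) x * tb w (ext γ) none (some (some (β j))) := by
  rw [tb_orth w (ext β) (ext γ) hβ, Fintype.sum_option]
  have : ext β none = ext γ none := rfl
  rw [this, tb_self w (ext γ) hγ, if_pos rfl, mul_one]
  rfl

/-- The basic variable `T` prevents `β` from being terminal. -/
def XF (s : Option ι → Kol V → SignType) : Prop := ∃ l, β l = T ∧
  (((∀ j, rk (β j) < rk T → s (some j) none ≠ -1) ∧
    (∀ k, rk k < rk T → s none (some (some k)) ≠ -1) ∧ s (some l) none = -1) ∨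
   (∃ k, rk k < rk T ∧ s none (some (some k)) = -1 ∧
    (∀ j, rk (β j) < rk T → s (some j) (some (some k)) ≠ 1) ∧ s (some l) (some (some k)) = 1))

/-- The nonbasic variable `T` prevents `β` from being terminal. -/
def YF (s : Option ι → Kol V → SignType) : Prop := (∀ j, β j ≠ T) ∧
  (((∀ j, rk (β j) < rk T → s (some j) none ≠ -1) ∧
    (∀ k, rk k < rk T → s none (some (some k)) ≠ -1) ∧ s none (some (some T)) = -1) ∨
   (∃ i, rk (β i) < rk T ∧ s (some i) none = -1 ∧
    (∀ k, rk k < rk T → s (some i) (some (some k)) ≠ -1) ∧ s (some i) (some (some T)) = -1))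

variable {rk T β γ w}

lemma sum_pos_of (hrk : Injective rk) (hinj : Injective β) {l : ι} (hl : β l = T) (u : ι → ℝ)
    (φ : V → ℝ) (h1 : ∀ j, rk (β j) < rk T → 0 ≤ u j * φ (β j)) (h2 : 0 < u l * φ T)
    (h3 : ∀ j, rk T < rk (β j) → φ (β j) = 0) : 0 < ∑ j, u j * φ (β j) := by
  refine Finset.sum_pos' (fun j _ => ?_) ⟨l, Finset.mem_univ l, by rw [hl]; exact h2⟩
  rcases lt_trichotomy (rk (β j)) (rk T) with h | h | h
  · exact h1 j h
  · have hj : j = l := hinj (by rw [hl]; exact hrk h)
    rw [hj, hl]
    exact h2.le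
  · rw [h3 j h, mul_zero]

lemma sum_neg_of (hrk : Injective rk) (hinj : Injective β) {l : ι} (hl : β l = T) (u : ι → ℝ)
    (φ : V → ℝ) (h1 : ∀ j, rk (β j) < rk T → u j * φ (β j) ≤ 0) (h2 : u l * φ T < 0)
    (h3 : ∀ j, rk T < rk (β j) → φ (β j) = 0) : ∑ j, u j * φ (β j) < 0 := by
  have := sum_pos_of hrk hinj hl (fun j => - u j) φ
    (fun j hj => by have := h1 j hj; linarith) (by linarith) h3
  have e : ∑ j, - u j * φ (β j) = - ∑ j, u j * φ (β j) := by
    rw [← Finset.sum_neg_distrib]
    exact Finset.sum_congr rfl fun j _ => by ring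
  rw [e] at this
  linarith

lemma ne_neg {x : ℝ} : SignType.sign x ≠ -1 ↔ 0 ≤ x := by
  rw [Ne, sign_eq_neg_one_iff, not_lt]

lemma ne_pos {x : ℝ} : SignType.sign x ≠ 1 ↔ x ≤ 0 := by
  rw [Ne, sign_eq_one_iff, not_lt]

theorem no_pair (hrk : Injective rk) (hβ : dd w (ext β) ≠ 0) (hγ : dd w (ext γ) ≠ 0)
    (X : XF β rk T (star w β)) (Y : YF γ rk T (star w γ))
    (same : ∀ k, rk T < rk k → ((∃ j, β j = k) ↔ ∃ j, γ j = k)) : False := by
  have hinjβ := inj_of_ext w β hβ
  have hinjγ := inj_of_ext w γ hγ
  obtain ⟨l, hl, hX⟩ := X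
  obtain ⟨hT, hY⟩ := Y
  unfold star at hX hY
  simp only [ne_neg, ne_pos, sign_eq_neg_one_iff, sign_eq_one_iff] at hX hY
  -- the rows of `γ` vanish on the basic variables of `β` with large index
  have z1 : ∀ i, rk (γ i) < rk T → ∀ j, rk T < rk (β j) →
      tb w (ext γ) (some i) (some (some (β j))) = 0 := by
    intro i hi j hj
    obtain ⟨j', hj'⟩ := (same (β j) hj).1 ⟨j, rfl⟩
    refine star_basic w γ hγ j' (β j) (some i) hj' ?_
    intro h
    rw [Option.some.injEq] at h
    rw [h, hj'] at hi
    omega
  have z2 : ∀ j, rk T < rk (β j) → tb w (ext γ) none (some (some (β j))) = 0 := by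
    intro j hj
    obtain ⟨j', hj'⟩ := (same (β j) hj).1 ⟨j, rfl⟩
    exact star_basic w γ hγ j' (β j) none hj' (by simp)
  have z3 : ∀ j, rk T < rk (γ j) → tb w (ext β) none (some (some (γ j))) = 0 := by
    intro j hj
    obtain ⟨j', hj'⟩ := (same (γ j) hj).2 ⟨j, rfl⟩
    exact star_basic w β hβ j' (γ j) none hj' (by simp)
  rcases hX with ⟨x1, x2, x3⟩ | ⟨k, hk, x1, x2, x3⟩
  · rcases hY with ⟨y1, y2, y3⟩ | ⟨i, hi, y1, y2, y3⟩
    · have o1 := orth_obj w β γ hβ hγ none
      have o2 := orth_obj w γ β hγ hβ none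
      have s1 := sum_pos_of (β := β) (rk := rk) (T := T) hrk hinjβ hl
        (fun j => tb w (ext β) (some j) none) (fun v => tb w (ext γ) none (some (some v)))
        (fun j hj => mul_nonneg (x1 j hj) (y2 _ hj)) (mul_pos_of_neg_of_neg x3 y3) z2
      have s2 : 0 ≤ ∑ j, tb w (ext γ) (some j) none * tb w (ext β) none (some (some (γ j))) := by
        refine Finset.sum_nonneg fun j _ => ?_
        rcases lt_trichotomy (rk (γ j)) (rk T) with h | h | h
        · exact mul_nonneg (y1 j h) (x2 _ h)
        · exact absurd (hrk h) (hT j)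
        · rw [z3 j h, mul_zero]
      linarith
    · have o1 := orth_row w β γ hβ hγ i none
      have s1 := sum_pos_of (β := β) (rk := rk) (T := T) hrk hinjβ hl
        (fun j => tb w (ext β) (some j) none) (fun v => tb w (ext γ) (some i) (some (some v)))
        (fun j hj => mul_nonneg (x1 j hj) (y2 _ hj)) (mul_pos_of_neg_of_neg x3 y3) (z1 i hi)
      linarith
  · rcases hY with ⟨y1, y2, y3⟩ | ⟨i, hi, y1, y2, y3⟩
    · have o1 := orth_obj w β γ hβ hγ (some (some k))
      have s1 := sum_neg_of (β := β) (rk := rk) (T := T) hrk hinjβ hl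
        (fun j => tb w (ext β) (some j) (some (some k)))
        (fun v => tb w (ext γ) none (some (some v)))
        (fun j hj => mul_nonpos_of_nonpos_of_nonneg (x2 j hj) (y2 _ hj))
        (mul_neg_of_pos_of_neg x3 y3) z2
      have := y2 k hk
      linarith
    · have o1 := orth_row w β γ hβ hγ i (some (some k))
      have s1 := sum_neg_of (β := β) (rk := rk) (T := T) hrk hinjβ hl
        (fun j => tb w (ext β) (some j) (some (some k)))
        (fun v => tb w (ext γ) (some i) (some (some v)))
        (fun j hj => mul_nonpos_of_nonpos_of_nonneg (x2 j hj) (y2 _ hj))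
        (mul_neg_of_pos_of_neg x3 y3) (z1 i hi)
      have := y2 k hk
      linarith

end Pair

/-! ### Existence of a terminal tableau -/

section Exists

variable {α : Type*} (w : α → Matrix (Option ι) (Kol V) ℝ)
  (σ : (ι → V) → Option ι → Kol V → SignType) (rk : V → ℕ)

/-- Any two of the patterns are realized simultaneously. -/
def Loc2 : Prop := ∀ β γ : ι → V, ∃ a, star (w a) β = σ β ∧ star (w a) γ = σ γ

/-- The tableau shows optimality, primal infeasibility or dual infeasibility, as far as the
variables of rank less than `t` are concerned. -/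
def Term (t : ℕ) (β : ι → V) (s : Option ι → Kol V → SignType) : Prop :=
  ((∀ j, rk (β j) < t → s (some j) none ≠ -1) ∧ (∀ k, rk k < t → s none (some (some k)) ≠ -1)) ∨
  (∃ i, rk (β i) < t ∧ s (some i) none = -1 ∧
    ∀ k, rk k < t → s (some i) (some (some k)) ≠ -1) ∨
  (∃ k, rk k < t ∧ s none (some (some k)) = -1 ∧
    ∀ j, rk (β j) < t → s (some j) (some (some k)) ≠ 1)

variable {w σ rk}

lemma nd_iff (hloc : Loc2 w σ) (β : ι → V) :
    σ β none (some none) ≠ 0 ↔ ∃ a, star (w a) β = σ β ∧ dd (w a) (ext β) ≠ 0 := by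
  constructor
  · intro h
    obtain ⟨a, ha, -⟩ := hloc β β
    exact ⟨a, ha, (star_nd (w a) β).1 (by rw [ha]; exact h)⟩
  · rintro ⟨a, ha, h⟩
    rw [← ha]
    exact (star_nd (w a) β).2 h

lemma nd_pivot (hloc : Loc2 w σ) (β : ι → V) (hβ : σ β none (some none) ≠ 0) (l : ι) (k : V)
    (h : σ β (some l) (some (some k)) ≠ 0) : σ (update β l k) none (some none) ≠ 0 := by
  obtain ⟨a, h1, h2⟩ := hloc β (update β l k)
  rw [nd_iff hloc]
  refine ⟨a, h2, ?_⟩
  have h3 : dd (w a) (ext β) ≠ 0 := (star_nd (w a) β).1 (by rw [h1]; exact hβ)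
  rw [← h1] at h
  unfold star at h
  rw [sign_ne_zero, tb_ne _ _ _ _ h3] at h
  rw [ext_update]
  exact h

lemma sig_basic (hloc : Loc2 w σ) (β : ι → V) (hβ : σ β none (some none) ≠ 0) (i : ι) (k : V)
    (j : Option ι) (hk : β i = k) (hj : j ≠ some i) : σ β j (some (some k)) = 0 := by
  obtain ⟨a, h1, h2⟩ := (nd_iff hloc β).1 hβ
  rw [← h1]
  unfold star
  rw [star_basic (w a) β h2 i k j hk hj, sign_zero]

lemma sig_self (hloc : Loc2 w σ) (β : ι → V) (hβ : σ β none (some none) ≠ 0) (i : ι) (k : V)
    (hk : β i = k) : σ β (some i) (some (some k)) = 1 := by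
  obtain ⟨a, h1, h2⟩ := (nd_iff hloc β).1 hβ
  rw [← h1]
  unfold star
  have e : (some (some k) : Kol V) = ext β (some i) := by rw [← hk]; rfl
  rw [e, tb_self _ _ h2, if_pos rfl, sign_one]

lemma sig_inj (hloc : Loc2 w σ) (β : ι → V) (hβ : σ β none (some none) ≠ 0) : Injective β := by
  obtain ⟨a, h1, h2⟩ := (nd_iff hloc β).1 hβ
  exact inj_of_ext (w a) β h2

/-- A tableau that is terminal below `T` is terminal for `T`, too, or fails at `T`. -/
lemma term_step (hrk : Injective rk) (hloc : Loc2 w σ) (β : ι → V)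
    (hβ : σ β none (some none) ≠ 0) (T : V) (h : Term rk (rk T) β (σ β)) :
    Term rk (rk T + 1) β (σ β) ∨ XF β rk T (σ β) ∨ YF β rk T (σ β) := by
  have hlt : ∀ k, rk k < rk T + 1 → rk k < rk T ∨ k = T := by
    intro k hk
    rcases Nat.lt_succ_iff_lt_or_eq.1 hk with h | h
    · exact Or.inl h
    · exact Or.inr (hrk h)
  have hinj := sig_inj hloc β hβ
  by_cases hT : ∃ l, β l = T
  · obtain ⟨l, hl⟩ := hT
    have hltj : ∀ j, rk (β j) < rk T + 1 → rk (β j) < rk T ∨ j = l := by
      intro j hj
      rcases hlt _ hj with h | h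
      · exact Or.inl h
      · exact Or.inr (hinj (by rw [h, hl]))
    rcases h with ⟨h1, h2⟩ | ⟨i, hi, h1, h2⟩ | ⟨k, hk, h1, h2⟩
    · by_cases hneg : σ β (some l) none = -1
      · exact Or.inr (Or.inl ⟨l, hl, Or.inl ⟨h1, h2, hneg⟩⟩)
      · refine Or.inl (Or.inl ⟨?_, ?_⟩)
        · intro j hj
          rcases hltj j hj with h | h
          · exact h1 j h
          · rw [h]; exact hneg
        · intro k hk
          rcases hlt k hk with h | h
          · exact h2 k h
          · rw [h, sig_basic hloc β hβ l T none hl (by simp)]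
            decide
    · refine Or.inl (Or.inr (Or.inl ⟨i, by omega, h1, ?_⟩))
      intro k hk
      rcases hlt k hk with h | h
      · exact h2 k h
      · rw [h, sig_basic hloc β hβ l T (some i) hl (by
          intro h'
          rw [Option.some.injEq] at h'
          rw [h', hl] at hi
          omega)]
        decide
    · by_cases hpos : σ β (some l) (some (some k)) = 1
      · exact Or.inr (Or.inl ⟨l, hl, Or.inr ⟨k, hk, h1, h2, hpos⟩⟩)
      · refine Or.inl (Or.inr (Or.inr ⟨k, by omega, h1, ?_⟩))
        intro j hj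
        rcases hltj j hj with h | h
        · exact h2 j h
        · rw [h]; exact hpos
  · push Not at hT
    have hltj : ∀ j, rk (β j) < rk T + 1 → rk (β j) < rk T := by
      intro j hj
      rcases hlt _ hj with h | h
      · exact h
      · exact absurd h (hT j)
    rcases h with ⟨h1, h2⟩ | ⟨i, hi, h1, h2⟩ | ⟨k, hk, h1, h2⟩
    · by_cases hneg : σ β none (some (some T)) = -1
      · exact Or.inr (Or.inr ⟨hT, Or.inl ⟨h1, h2, hneg⟩⟩)
      · refine Or.inl (Or.inl ⟨fun j hj => h1 j (hltj j hj), ?_⟩)
        intro k hk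
        rcases hlt k hk with h | h
        · exact h2 k h
        · rw [h]; exact hneg
    · by_cases hneg : σ β (some i) (some (some T)) = -1
      · exact Or.inr (Or.inr ⟨hT, Or.inr ⟨i, hi, h1, h2, hneg⟩⟩)
      · refine Or.inl (Or.inr (Or.inl ⟨i, by omega, h1, ?_⟩))
        intro k hk
        rcases hlt k hk with h | h
        · exact h2 k h
        · rw [h]; exact hneg
    · exact Or.inl (Or.inr (Or.inr ⟨k, by omega, h1, fun j hj => h2 j (hltj j hj)⟩))

/-- If the basic variable `T` fails, then we are done or can pivot it out. -/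
lemma xf_step (hrk : Injective rk) (hloc : Loc2 w σ) (β : ι → V)
    (hβ : σ β none (some none) ≠ 0) (T : V) (h : XF β rk T (σ β)) :
    Term rk (rk T + 1) β (σ β) ∨
      ∃ l k, β l = T ∧ rk k < rk T ∧ σ β (some l) (some (some k)) ≠ 0 := by
  obtain ⟨l, hl, ⟨h1, h2, h3⟩ | ⟨k, hk, h1, h2, h3⟩⟩ := h
  · by_cases hall : ∀ k, rk k < rk T → σ β (some l) (some (some k)) ≠ -1
    · refine Or.inl (Or.inr (Or.inl ⟨l, by rw [hl]; omega, h3, ?_⟩))
      intro k hk
      rcases Nat.lt_succ_iff_lt_or_eq.1 hk with h | h
      · exact hall k h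
      · rw [hrk h, sig_self hloc β hβ l T hl]
        decide
    · push Not at hall
      obtain ⟨k, hk, hneg⟩ := hall
      exact Or.inr ⟨l, k, hl, hk, by rw [hneg]; decide⟩
  · exact Or.inr ⟨l, k, hl, hk, by rw [h3]; decide⟩

/-- If the nonbasic variable `T` fails, then we are done or can pivot it in. -/
lemma yf_step (hrk : Injective rk) (β : ι → V) (T : V) (h : YF β rk T (σ β)) :
    Term rk (rk T + 1) β (σ β) ∨
      ∃ i, rk (β i) < rk T ∧ σ β (some i) (some (some T)) ≠ 0 := by
  obtain ⟨hT, ⟨h1, h2, h3⟩ | ⟨i, hi, h1, h2, h3⟩⟩ := h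
  · by_cases hall : ∀ j, rk (β j) < rk T → σ β (some j) (some (some T)) ≠ 1
    · refine Or.inl (Or.inr (Or.inr ⟨T, by omega, h3, ?_⟩))
      intro j hj
      rcases Nat.lt_succ_iff_lt_or_eq.1 hj with h | h
      · exact hall j h
      · exact absurd (hrk h) (hT j)
    · push Not at hall
      obtain ⟨j, hj, hpos⟩ := hall
      exact Or.inr ⟨j, hj, by rw [hpos]; decide⟩
  · exact Or.inr ⟨i, hi, by rw [h3]; decide⟩

theorem exists_term (hrk : Injective rk) (hloc : Loc2 w σ) (t : ℕ) :
    ∀ β : ι → V, σ β none (some none) ≠ 0 → ∃ β' : ι → V, σ β' none (some none) ≠ 0 ∧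
      (∀ k, t ≤ rk k → ((∃ j, β j = k) ↔ ∃ j, β' j = k)) ∧ Term rk t β' (σ β') := by
  induction t with
  | zero =>
    intro β hβ
    exact ⟨β, hβ, fun _ _ => Iff.rfl, Or.inl ⟨fun j hj => absurd hj (Nat.not_lt_zero _),
      fun j hj => absurd hj (Nat.not_lt_zero _)⟩⟩
  | succ t ih =>
    intro β hβ
    obtain ⟨β1, hβ1, same1, term1⟩ := ih β hβ
    by_cases hex : ∃ T, rk T = t
    · obtain ⟨T, rfl⟩ := hex
      rcases term_step hrk hloc β1 hβ1 T term1 with h | h | h
      · exact ⟨β1, hβ1, fun k hk => same1 k (by omega), h⟩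
      · rcases xf_step hrk hloc β1 hβ1 T h with h' | ⟨l, k, hl, hk, hne⟩
        · exact ⟨β1, hβ1, fun k hk => same1 k (by omega), h'⟩
        · have hinj := sig_inj hloc β1 hβ1
          obtain ⟨β3, hβ3, same3, term3⟩ := ih (update β1 l k) (nd_pivot hloc β1 hβ1 l k hne)
          have hT3 : ¬ ∃ j, β3 j = T := by
            rw [← same3 T le_rfl]
            rintro ⟨j, hj⟩
            by_cases hjl : j = l
            · subst hjl
              rw [update_self] at hj
              rw [hj] at hk
              omega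
            · rw [update_of_ne hjl] at hj
              exact hjl (hinj (by rw [hj, hl]))
          have same13 : ∀ k', rk T < rk k' → ((∃ j, β1 j = k') ↔ ∃ j, β3 j = k') := by
            intro k' hk'
            rw [← same3 k' hk'.le]
            constructor
            · rintro ⟨j, hj⟩
              have hjl : j ≠ l := by
                rintro rfl
                rw [← hj, hl] at hk'
                omega
              exact ⟨j, by rw [update_of_ne hjl]; exact hj⟩
            · rintro ⟨j, hj⟩
              have hjl : j ≠ l := by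
                rintro rfl
                rw [update_self] at hj
                rw [hj] at hk
                omega
              exact ⟨j, by rw [update_of_ne hjl] at hj; exact hj⟩
          have hsame : ∀ k', rk T + 1 ≤ rk k' → ((∃ j, β j = k') ↔ ∃ j, β3 j = k') := by
            intro k' hk'
            rw [same1 k' (by omega), same13 k' (by omega)]
          rcases term_step hrk hloc β3 hβ3 T term3 with h3 | h3 | h3
          · exact ⟨β3, hβ3, hsame, h3⟩
          · obtain ⟨l', hl', -⟩ := h3
            exact absurd ⟨l', hl'⟩ hT3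
          · exfalso
            obtain ⟨a, a1, a3⟩ := hloc β1 β3
            rw [← a1] at h hβ1
            rw [← a3] at h3 hβ3
            exact no_pair hrk ((star_nd _ _).1 hβ1) ((star_nd _ _).1 hβ3) h h3 same13
      · rcases yf_step hrk β1 T h with h' | ⟨i, hi, hne⟩
        · exact ⟨β1, hβ1, fun k hk => same1 k (by omega), h'⟩
        · obtain ⟨β3, hβ3, same3, term3⟩ := ih (update β1 i T) (nd_pivot hloc β1 hβ1 i T hne)
          have hT3 : ∃ j, β3 j = T := by
            rw [← same3 T le_rfl]
            exact ⟨i, by rw [update_self]⟩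
          have same13 : ∀ k', rk T < rk k' → ((∃ j, β3 j = k') ↔ ∃ j, β1 j = k') := by
            intro k' hk'
            rw [← same3 k' hk'.le]
            constructor
            · rintro ⟨j, hj⟩
              have hji : j ≠ i := by
                rintro rfl
                rw [update_self] at hj
                rw [← hj] at hk'
                omega
              exact ⟨j, by rw [update_of_ne hji] at hj; exact hj⟩
            · rintro ⟨j, hj⟩
              have hji : j ≠ i := by
                rintro rfl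
                rw [hj] at hi
                omega
              exact ⟨j, by rw [update_of_ne hji]; exact hj⟩
          have hsame : ∀ k', rk T + 1 ≤ rk k' → ((∃ j, β j = k') ↔ ∃ j, β3 j = k') := by
            intro k' hk'
            rw [same1 k' (by omega), same13 k' (by omega)]
          rcases term_step hrk hloc β3 hβ3 T term3 with h3 | h3 | h3
          · exact ⟨β3, hβ3, hsame, h3⟩
          · exfalso
            obtain ⟨a, a1, a3⟩ := hloc β1 β3
            rw [← a1] at h hβ1
            rw [← a3] at h3 hβ3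
            exact no_pair hrk ((star_nd _ _).1 hβ3) ((star_nd _ _).1 hβ1) h3 h same13
          · obtain ⟨j, hj⟩ := hT3
            exact absurd hj (h3.1 j)
    · push Not at hex
      have hlt : ∀ k, rk k < t + 1 → rk k < t := by
        intro k hk
        rcases Nat.lt_succ_iff_lt_or_eq.1 hk with h | h
        · exact h
        · exact absurd h (hex k)
      refine ⟨β1, hβ1, fun k hk => same1 k (by omega), ?_⟩
      rcases term1 with ⟨h1, h2⟩ | ⟨i, hi, h1, h2⟩ | ⟨k, hk, h1, h2⟩
      · exact Or.inl ⟨fun j hj => h1 j (hlt _ hj), fun k hk => h2 k (hlt k hk)⟩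
      · exact Or.inr (Or.inl ⟨i, by omega, h1, fun k hk => h2 k (hlt k hk)⟩)
      · exact Or.inr (Or.inr ⟨k, by omega, h1, fun j hj => h2 j (hlt _ hj)⟩)

end Exists

end Pool.Agent.N597.CT
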