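import Pool.Agent.N597.CT.Out
import Pool.Agent.N597.CT.Cnt2
import Pool.Agent.H883LP.TaskSubst

set_option autoImplicit false

/-!
# Assembly
-/

namespace Pool.Agent.N597.CT

open Matrix Function Pool.Agent.H558R2 Pool.Agent.H883LP

variable {m n : ℕ}

/-- The total cost. -/
def tot (m n : ℕ) : ℕ :=
  (2 * min (pex m n) (pex2 m n) + 1) * rc m n + (m + n) + (2 * (m * n) + m + n)

theorem sol_tot (hmn : 2 ≤ m + n) : Sol (Spc (m := m) (n := n)) Set.univ [] (tot m n) := by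
  obtain ⟨H, b, av⟩ := base_blk m n
  have hP : (Set.range (chi m n)).ncard ≤ 2 ^ min (pex m n) (pex2 m n) := by
    rcases le_total (pex m n) (pex2 m n) with h | h
    · rw [min_eq_left h]
      exact ncard_chi_le m n
    · rw [min_eq_right h]
      exact ncard_chi_le2 m n hmn
  have h := solve_all (Spec := Spc (m := m) (n := n)) (m + n)
    (fun β ρ hT hρ G X hG hX hav => leaf β ρ hT hρ G X hG hX hav) _ hP H b.1 av
  exact b.2 _ _ (by simpa using h)

section Arith

variable (hm : 1 ≤ m) (hn : 1 ≤ n)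

include hm hn

lemma rc_le : rc m n ≤ 26 * (min m n * (m * n)) := by
  have hA : 1 ≤ m * n := Nat.mul_pos hm hn
  have hμ : 1 ≤ min m n := le_min hm hn
  have h1 : min m (n + 1) ≤ 2 * min m n := by omega
  have h2 : m + pc m n ≤ 10 * (m * n) := by
    unfold pc
    have e1 : (n + 2) * (2 * m + 1) ≤ (3 * n) * (3 * m) := Nat.mul_le_mul (by omega) (by omega)
    have e2 : (3 * n) * (3 * m) = 9 * (m * n) := by ring
    have e3 : m ≤ m * n := Nat.le_mul_of_pos_right m hn
    omega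
  have h3 : (m + 1) * (n + 2) ≤ 6 * (m * n) := by
    have e1 : (m + 1) * (n + 2) ≤ (2 * m) * (3 * n) := Nat.mul_le_mul (by omega) (by omega)
    have e2 : (2 * m) * (3 * n) = 6 * (m * n) := by ring
    omega
  have h4 : m * n ≤ min m n * (m * n) := Nat.le_mul_of_pos_left _ hμ
  unfold rc
  calc min m (n + 1) * (m + pc m n) + (m + 1) * (n + 2)
      ≤ (2 * min m n) * (10 * (m * n)) + 6 * (m * n) :=
        Nat.add_le_add (Nat.mul_le_mul h1 h2) h3
    _ = 20 * (min m n * (m * n)) + 6 * (m * n) := by ring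
    _ ≤ 26 * (min m n * (m * n)) := by omega

lemma var_le : m * n + m + n ≤ 3 * (m * n) := by
  have e3 : m ≤ m * n := Nat.le_mul_of_pos_right m hn
  have e4 : n ≤ m * n := Nat.le_mul_of_pos_left n hm
  omega

lemma pex_le : min m n * pex m n ≤ 27 * (m * n) ^ 2 := by
  have h1 : min m n * (2 * m + n + 6) ≤ 9 * (m * n) := by
    rcases le_total m n with h | h
    · rw [min_eq_left h]
      calc m * (2 * m + n + 6) ≤ m * (9 * n) := Nat.mul_le_mul_left _ (by omega)
        _ = 9 * (m * n) := by ring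
    · rw [min_eq_right h]
      calc n * (2 * m + n + 6) ≤ n * (9 * m) := Nat.mul_le_mul_left _ (by omega)
        _ = 9 * (m * n) := by ring
  unfold pex
  calc min m n * ((2 * m + n + 6) * (m * n + m + n))
      = (min m n * (2 * m + n + 6)) * (m * n + m + n) := by ring
    _ ≤ (9 * (m * n)) * (3 * (m * n)) := Nat.mul_le_mul h1 (var_le hm hn)
    _ = 27 * (m * n) ^ 2 := by ring

lemma pex2_le : pex2 m n ≤ 45 * (m * n * (min m n * Nat.log 2 (m + n))) := by
  have hg : 1 ≤ Nat.log 2 (m + n) := Nat.log_pos (by norm_num) (by omega)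
  set g := Nat.log 2 (m + n) with hgd
  have hμ : 1 ≤ min m n := le_min hm hn
  have h1 : min (m + 1) (n + 2) ≤ 3 * min m n := by omega
  have h2 : min (m + 1) (n + 2) * (g + 3) + 3 ≤ 15 * (min m n * g) := by
    have e1 : min (m + 1) (n + 2) * (g + 3) ≤ (3 * min m n) * (4 * g) :=
      Nat.mul_le_mul h1 (by omega)
    have e2 : (3 * min m n) * (4 * g) = 12 * (min m n * g) := by ring
    have e3 : 1 ≤ min m n * g := Nat.mul_pos hμ hg
    omega
  unfold pex2
  calc (min (m + 1) (n + 2) * (g + 3) + 3) * (m * n + m + n)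
      ≤ (15 * (min m n * g)) * (3 * (m * n)) := Nat.mul_le_mul h2 (var_le hm hn)
    _ = 45 * (m * n * (min m n * g)) := by ring

lemma rest_le : (m + n) + (2 * (m * n) + m + n) ≤ 6 * (m * n) := by
  have e3 : m ≤ m * n := Nat.le_mul_of_pos_right m hn
  have e4 : n ≤ m * n := Nat.le_mul_of_pos_left n hm
  omega

theorem tot_le1 : tot m n ≤ 1500 * (m * n) ^ 3 := by
  have hA : 1 ≤ m * n := Nat.mul_pos hm hn
  have h1 := rc_le hm hn
  have h2 := pex_le hm hn
  have h3 := rest_le hm hn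
  have hμA : min m n ≤ m * n := (min_le_left _ _).trans (Nat.le_mul_of_pos_right m hn)
  set A := m * n with hAd
  set μ := min m n with hμd
  have e1 : (2 * min (pex m n) (pex2 m n) + 1) * rc m n ≤
      (2 * pex m n + 1) * (26 * (μ * A)) :=
    Nat.mul_le_mul (by have := min_le_left (pex m n) (pex2 m n); omega) h1
  have e2 : (2 * pex m n + 1) * (26 * (μ * A)) = 52 * A * (μ * pex m n) + 26 * (μ * A) := by ring
  have e3 : 52 * A * (μ * pex m n) ≤ 52 * A * (27 * A ^ 2) := Nat.mul_le_mul_left _ h2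
  have e4 : 52 * A * (27 * A ^ 2) = 1404 * A ^ 3 := by ring
  have e5 : μ * A ≤ A ^ 3 := by
    calc μ * A ≤ A * A := Nat.mul_le_mul_right _ hμA
      _ = A ^ 2 := by ring
      _ ≤ A ^ 3 := Nat.pow_le_pow_right hA (by norm_num)
  have e6 : A ≤ A ^ 3 := by
    calc A = A ^ 1 := by ring
      _ ≤ A ^ 3 := Nat.pow_le_pow_right hA (by norm_num)
  unfold tot
  omega

theorem tot_le2 : tot m n ≤ 2400 * ((m * n) ^ 2 * (min m n) ^ 2 * Nat.log 2 (m + n)) := by
  have hA : 1 ≤ m * n := Nat.mul_pos hm hn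
  have h1 := rc_le hm hn
  have h2 := pex2_le hm hn
  have h3 := rest_le hm hn
  have hg : 1 ≤ Nat.log 2 (m + n) := Nat.log_pos (by norm_num) (by omega)
  have hμ1 : 1 ≤ min m n := le_min hm hn
  set A := m * n with hAd
  set μ := min m n with hμd
  set g := Nat.log 2 (m + n) with hgd
  have e1 : (2 * min (pex m n) (pex2 m n) + 1) * rc m n ≤
      (2 * pex2 m n + 1) * (26 * (μ * A)) :=
    Nat.mul_le_mul (by have := min_le_right (pex m n) (pex2 m n); omega) h1
  have e2 : (2 * pex2 m n + 1) * (26 * (μ * A)) = 52 * (μ * A) * pex2 m n + 26 * (μ * A) := by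
    ring
  have e3 : 52 * (μ * A) * pex2 m n ≤ 52 * (μ * A) * (45 * (A * (μ * g))) :=
    Nat.mul_le_mul_left _ h2
  have e4 : 52 * (μ * A) * (45 * (A * (μ * g))) = 2340 * (A ^ 2 * μ ^ 2 * g) := by ring
  have e5 : μ * A ≤ A ^ 2 * μ ^ 2 * g := by
    calc μ * A = (μ * A) * 1 := by ring
      _ ≤ (μ * A) * (μ * A * g) := Nat.mul_le_mul_left _ (Nat.mul_pos (Nat.mul_pos hμ1 hA) hg)
      _ = A ^ 2 * μ ^ 2 * g := by ring
  have e6 : A ≤ μ * A := Nat.le_mul_of_pos_left A hμ1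
  unfold tot
  omega

end Arith

/-! ### Encoding lengths -/

lemma optInput_eq (A : Matrix (Fin m) (Fin n) ℚ) (b : Fin m → ℚ) (c : Fin n → ℚ) :
    ∃ q : Id3 m n → ℚ, (optInput (fun i j => ((A i j : ℚ) : ℝ)) (fun i => ((b i : ℚ) : ℝ))
      (fun j => ((c j : ℚ) : ℝ))) = (fun k => ((q k : ℚ) : ℝ)) ∧ ell q = optLength A b c := by
  refine ⟨fun k => match k with
    | .inl p => A p.1 p.2
    | .inr (.inl i) => b i
    | .inr (.inr j) => c j, ?_, ?_⟩
  · ext k
    rcases k with p | i | j <;> rfl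
  · unfold ell optLength inputLength
    rw [Fintype.sum_sum_type, Fintype.sum_sum_type, Fintype.sum_prod_type, add_assoc]

lemma bit_of {A : Matrix (Fin m) (Fin n) ℚ} {b : Fin m → ℚ} {c : Fin n → ℚ}
    (hm : 1 ≤ m) (hn : 1 ≤ n) {v : ℝ}
    (h : ∃ g : Fn (Id3 m n), S2 g ∧ v = g (optInput (fun i j => ((A i j : ℚ) : ℝ))
      (fun i => ((b i : ℚ) : ℝ)) (fun j => ((c j : ℚ) : ℝ)))) :
    ∃ r : ℚ, (r : ℝ) = v ∧ bitLength r ≤ 4 * optLength A b c + 4 ∧
      bitLength r ≤ 5 * optLength A b c := by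
  obtain ⟨g, hg, rfl⟩ := h
  obtain ⟨q, hq, hℓ⟩ := optInput_eq A b c
  obtain ⟨r, hr1, hr2⟩ := hg.bit q
  have h6 := ell_ge hm hn q
  rw [hq]
  exact ⟨r, hr1, by omega, by omega⟩

/-! ### The theorem for linear programs -/

theorem lp_main (m n : ℕ) (hm : 1 ≤ m) (hn : 1 ≤ n) :
    ∃ T : CompTree ((Fin m × Fin n) ⊕ (Fin m ⊕ Fin n)),
      (∀ (A : Matrix (Fin m) (Fin n) ℝ) (b : Fin m → ℝ) (c : Fin n → ℝ), ∃ ans nums steps,
        T.run (optInput A b c) [] = some (ans, nums, steps) ∧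
        steps ≤ 1500 * (m * n) ^ 3 ∧
        steps ≤ 2400 * ((m * n) ^ 2 * (min m n) ^ 2 * Nat.log 2 (m + n)) ∧
        (ans = true → ∃ (x : Fin n → ℝ) (y : Fin m → ℝ), b ≤ A.mulVec x ∧ 0 ≤ y ∧
          Matrix.vecMul y A = c ∧ c ⬝ᵥ x = b ⬝ᵥ y ∧
          (∀ x' : Fin n → ℝ, b ≤ A.mulVec x' → c ⬝ᵥ x ≤ c ⬝ᵥ x') ∧
          ∃ l, nums = l ++ (List.ofFn x ++ List.ofFn y)) ∧
        (ans = false →
          (∃ y : Fin m → ℝ, 0 ≤ y ∧ Matrix.vecMul y A = 0 ∧ 0 < y ⬝ᵥ b ∧
            ∃ l, nums = l ++ List.ofFn y) ∨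
          (∃ d : Fin n → ℝ, 0 ≤ A.mulVec d ∧ c ⬝ᵥ d < 0 ∧ ∃ l, nums = l ++ List.ofFn d))) ∧
      (∀ (A : Matrix (Fin m) (Fin n) ℚ) (b : Fin m → ℚ) (c : Fin n → ℚ) (ans : Bool)
        (nums : List ℝ) (steps : ℕ),
        T.run (optInput (fun i j => ((A i j : ℚ) : ℝ)) (fun i => ((b i : ℚ) : ℝ))
          (fun j => ((c j : ℚ) : ℝ))) [] = some (ans, nums, steps) →
        ∀ v ∈ nums, ∃ q : ℚ, (q : ℝ) = v ∧ bitLength q ≤ 4 * optLength A b c + 4 ∧
          bitLength q ≤ 5 * optLength A b c) := by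
  obtain ⟨T, hT⟩ := sol_tot (m := m) (n := n) (by omega)
  refine ⟨T, ?_, ?_⟩
  · intro A b c
    obtain ⟨ans, nums, steps, h1, ⟨-, h2, h3⟩, h4⟩ := hT (optInput A b c) (Set.mem_univ _)
    refine ⟨ans, nums, steps, h1, h4.trans (tot_le1 hm hn), h4.trans (tot_le2 hm hn), ?_, ?_⟩
    · intro hans
      obtain ⟨X, Y, ⟨p1, p2, p3, p4⟩, l, hl⟩ := h2 hans
      have q1 : b ≤ A.mulVec X := fun r => p1 r
      have q3 : Matrix.vecMul Y A = c := by
        ext j
        exact p3 j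
      have q4 : c ⬝ᵥ X = b ⬝ᵥ Y := p4
      refine ⟨X, Y, q1, fun r => p2 r, q3, q4, ?_, l, hl⟩
      intro x' hx'
      rw [q4, ← q3, ← Matrix.dotProduct_mulVec, dotProduct_comm b Y]
      exact dotProduct_le_dotProduct_of_nonneg_left hx' (fun r => p2 r)
    · intro hans
      rcases h3 hans with ⟨Y, ⟨p1, p2, p3⟩, l, hl⟩ | ⟨d, ⟨p1, p2⟩, l, hl⟩
      · refine Or.inl ⟨Y, fun r => p1 r, ?_, ?_, l, hl⟩
        · ext j
          exact p2 j
        · rw [dotProduct_comm]
          exact p3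
      · exact Or.inr ⟨d, fun r => p1 r, p2, l, hl⟩
  · intro A b c ans nums steps hrun v hv
    obtain ⟨ans', nums', steps', h1, ⟨h2, -⟩, -⟩ := hT (optInput (fun i j => ((A i j : ℚ) : ℝ))
      (fun i => ((b i : ℚ) : ℝ)) (fun j => ((c j : ℚ) : ℝ))) (Set.mem_univ _)
    have e : some (ans, nums, steps) = some (ans', nums', steps') := by
      rw [← hrun]
      exact h1
    simp only [Option.some.injEq, Prod.mk.injEq] at e
    obtain ⟨-, rfl, -⟩ := e
    exact bit_of hm hn (h2 v hv)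

/-! ### Linear feasibility -/

theorem feas_main (m n : ℕ) (hm : 1 ≤ m) (hn : 1 ≤ n) :
    ∃ T : CompTree ((Fin m × Fin n) ⊕ Fin m),
      (∀ (A : Matrix (Fin m) (Fin n) ℝ) (b : Fin m → ℝ), ∃ ans nums steps,
        T.run (lpInput A b) [] = some (ans, nums, steps) ∧
        steps ≤ 1500 * (m * n) ^ 3 ∧
        steps ≤ 2400 * ((m * n) ^ 2 * (min m n) ^ 2 * Nat.log 2 (m + n)) ∧
        (ans = true → ∃ x : Fin n → ℝ, b ≤ A.mulVec x) ∧
        (ans = false → ∃ y : Fin m → ℝ, 0 ≤ y ∧ Matrix.vecMul y A = 0 ∧ 0 < y ⬝ᵥ b ∧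
          ∃ l, nums = l ++ List.ofFn y) ∧
        (ans = true → ∃ (x : Fin n → ℝ) (y : Fin m → ℝ), b ≤ A.mulVec x ∧
          ∃ l, nums = l ++ (List.ofFn x ++ List.ofFn y))) ∧
      (∀ (A : Matrix (Fin m) (Fin n) ℚ) (b : Fin m → ℚ) (ans : Bool) (nums : List ℝ)
        (steps : ℕ),
        T.run (lpInput (fun i j => ((A i j : ℚ) : ℝ)) (fun i => ((b i : ℚ) : ℝ))) [] =
          some (ans, nums, steps) →
        ∀ v ∈ nums, ∃ q : ℚ, (q : ℝ) = v ∧ bitLength q ≤ 8 * inputLength A b) := by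
  obtain ⟨T, hT1, hT2⟩ := lp_main m n hm hn
  set g : (Fin m × Fin n) ⊕ (Fin m ⊕ Fin n) → Operand ((Fin m × Fin n) ⊕ Fin m) :=
    fun k => match k with
    | .inl p => .input (.inl p)
    | .inr (.inl i) => .input (.inr i)
    | .inr (.inr _) => .zero with hg
  have hrun : ∀ (A : Fin m → Fin n → ℝ) (b : Fin m → ℝ),
      (substT g 0 T).run (lpInput A b) [] = T.run (optInput A b (fun _ => 0)) [] := by
    intro A b
    have h := taskSubst _ _ g (optInput A b (fun _ => 0)) (lpInput A b) [] (by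
      intro k res
      rcases k with p | i | j <;> rfl) T []
    simp only [List.length_nil, List.nil_append] at h
    rw [h]
    cases T.run (optInput A b fun _ => 0) [] with
    | none => rfl
    | some r => rfl
  refine ⟨substT g 0 T, ?_, ?_⟩
  · intro A b
    obtain ⟨ans, nums, steps, h1, h2, h3, h4, h5⟩ := hT1 A b 0
    refine ⟨ans, nums, steps, ?_, h2, h3, ?_, ?_, ?_⟩
    · rw [hrun]
      exact h1
    · intro h
      obtain ⟨x, y, q1, -⟩ := h4 h
      exact ⟨x, q1⟩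
    · intro h
      rcases h5 h with h | ⟨d, -, h, -⟩
      · exact h
      · rw [zero_dotProduct] at h
        exact absurd h (lt_irrefl _)
    · intro h
      obtain ⟨x, y, q1, -, -, -, -, q6⟩ := h4 h
      exact ⟨x, y, q1, q6⟩
  · intro A b ans nums steps h v hv
    rw [hrun] at h
    have h' : T.run (optInput (fun i j => ((A i j : ℚ) : ℝ)) (fun i => ((b i : ℚ) : ℝ))
        (fun j => (((fun _ => 0 : Fin n → ℚ) j : ℚ) : ℝ))) [] = some (ans, nums, steps) := by
      rw [← h]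
      congr 1
      ext k
      rcases k with p | i | j
      · rfl
      · rfl
      · simp [optInput]
    obtain ⟨q, hq1, hq2, -⟩ := hT2 A b (fun _ => 0) ans nums steps h' v hv
    refine ⟨q, hq1, hq2.trans ?_⟩
    have hb : ∀ r : ℚ, 2 ≤ bitLength r := by
      intro r
      unfold bitLength
      have := Nat.size_pos.2 r.den_pos
      omega
    have hL : 2 * n + 2 ≤ inputLength A b := by
      unfold inputLength
      have e1 : ∑ _i : Fin m, ∑ _j : Fin n, 2 ≤ ∑ i, ∑ j, bitLength (A i j) :=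
        Finset.sum_le_sum fun i _ => Finset.sum_le_sum fun j _ => hb _
      have e2 : ∑ _i : Fin m, 2 ≤ ∑ i, bitLength (b i) := Finset.sum_le_sum fun i _ => hb _
      simp only [Finset.sum_const, Finset.card_univ, Fintype.card_fin, smul_eq_mul] at e1 e2
      have e3 : n ≤ m * n := Nat.le_mul_of_pos_left n hm
      have e4 : m * (n * 2) = 2 * (m * n) := by ring
      omega
    have hO : optLength A b (fun _ => 0) = inputLength A b + 2 * n := by
      unfold optLength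
      have : bitLength 0 = 2 := by simp [bitLength]
      simp only [this, Finset.sum_const, Finset.card_univ, Fintype.card_fin, smul_eq_mul]
      ring
    rw [hO]
    omega

end Pool.Agent.N597.CT
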