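import Pool.Agent.N597.CT.LPw
import Pool.Agent.H558R2.Slp

set_option autoImplicit false

/-!
# The size of the numbers in a tableau
-/

namespace Pool.Agent.N597.CT

open Matrix Function Pool.Agent.H558R2

/-! ### A bound for determinants -/

lemma abs_det_le {R : Type*} [Fintype R] [DecidableEq R] (M : Matrix R R ℝ) :
    |M.det| ≤ ∏ i, ∑ j, |M i j| := by
  rw [← det_transpose, det_apply']
  refine (Finset.abs_sum_le_sum_abs _ _).trans ?_
  have h1 : ∀ σ : Equiv.Perm R, |((Equiv.Perm.sign σ : ℤ) : ℝ) * ∏ i, Mᵀ (σ i) i| =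
      ∏ i, |M i (σ i)| := by
    intro σ
    rw [abs_mul, Finset.abs_prod]
    have : |((Equiv.Perm.sign σ : ℤ) : ℝ)| = 1 := by
      rcases Int.units_eq_one_or (Equiv.Perm.sign σ) with h | h <;> simp [h]
    rw [this, one_mul]
    rfl
  simp only [h1]
  rw [Finset.prod_univ_sum]
  have h2 : ∑ σ : Equiv.Perm R, ∏ i, |M i (σ i)| =
      ∑ f ∈ Finset.univ.image (fun σ : Equiv.Perm R => (σ : R → R)), ∏ i, |M i (f i)| := by
    rw [Finset.sum_image]
    intro σ _ τ _ h
    exact Equiv.coe_fn_injective h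
  rw [h2]
  refine Finset.sum_le_sum_of_subset_of_nonneg ?_ ?_
  · intro f _
    simp
  · intro f _ _
    exact Finset.prod_nonneg fun i _ => abs_nonneg _

/-! ### Rows -/

lemma two_pow_bit (q : ℚ) : (q.den : ℝ) * (1 + 2 * |(q : ℝ)|) ≤ 2 ^ bitLength q := by
  have h0 : (0 : ℝ) < q.den := by exact_mod_cast q.den_pos
  have e : (q.den : ℝ) * (1 + 2 * |(q : ℝ)|) = (q.den : ℝ) + 2 * (q.num.natAbs : ℝ) := by
    have e1 : (q : ℝ) = (q.num : ℝ) / (q.den : ℝ) := by
      conv_lhs => rw [← Rat.num_div_den q]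
      push_cast
      rfl
    have e2 : (q.num.natAbs : ℝ) = |(q.num : ℝ)| := by
      rw [← Int.cast_abs, ← Int.natCast_natAbs]
      rfl
    rw [e1, abs_div, abs_of_pos h0, e2]
    field_simp
  rw [e]
  have h1 : q.den < 2 ^ Nat.size q.den := Nat.lt_size_self _
  have h2 : q.num.natAbs < 2 ^ Nat.size q.num.natAbs := Nat.lt_size_self _
  have h3 : q.den + 2 * q.num.natAbs ≤ 2 ^ bitLength q := by
    unfold bitLength
    rw [pow_add, pow_add, pow_one]
    set u := 2 ^ Nat.size q.num.natAbs with hu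
    set v := 2 ^ Nat.size q.den with hv
    have hd := q.den_pos
    have hv2 : 2 ≤ v := by
      rw [hv]
      have : 1 ≤ Nat.size q.den := Nat.size_pos.2 hd
      calc 2 = 2 ^ 1 := by norm_num
        _ ≤ 2 ^ Nat.size q.den := Nat.pow_le_pow_right (by norm_num) this
    have hu1 : 1 ≤ u := Nat.one_le_two_pow
    have hu' : q.num.natAbs ≤ u - 1 := by omega
    have hv' : q.den ≤ v := h1.le
    obtain ⟨a, ha⟩ : ∃ a, u = a + 1 := ⟨u - 1, by omega⟩
    obtain ⟨b, hb⟩ : ∃ b, v = b + 2 := ⟨v - 2, by omega⟩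
    have h4 : q.num.natAbs ≤ a := by omega
    rw [ha, hb]
    calc q.den + 2 * q.num.natAbs ≤ (b + 2) + 2 * a := by omega
      _ ≤ 2 * (a + 1) * (b + 2) := by nlinarith
  exact_mod_cast h3

variable {κ : Type} [DecidableEq κ]

lemma prod_bound (q : κ → ℚ) (s : Finset κ) :
    (∏ k ∈ s, ((q k).den : ℝ)) * (1 + 2 * ∑ k ∈ s, |(q k : ℝ)|) ≤ 2 ^ ∑ k ∈ s, bitLength (q k) := by
  induction s using Finset.induction_on with
  | empty => simp
  | insert a s ha ih =>
    rw [Finset.prod_insert ha, Finset.sum_insert ha, Finset.sum_insert ha, pow_add]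
    have h1 := two_pow_bit (q a)
    have h2 : (0 : ℝ) ≤ ∏ k ∈ s, ((q k).den : ℝ) := by positivity
    have h3 : (0 : ℝ) ≤ ∑ k ∈ s, |(q k : ℝ)| := by positivity
    have h4 : (0 : ℝ) ≤ ((q a).den : ℝ) := by positivity
    have h5 := abs_nonneg ((q a : ℚ) : ℝ)
    calc ((q a).den : ℝ) * (∏ k ∈ s, ((q k).den : ℝ)) *
          (1 + 2 * (|(q a : ℝ)| + ∑ k ∈ s, |(q k : ℝ)|))
        ≤ ((q a).den : ℝ) * (∏ k ∈ s, ((q k).den : ℝ)) *
          ((1 + 2 * |(q a : ℝ)|) * (1 + 2 * ∑ k ∈ s, |(q k : ℝ)|)) := by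
          apply mul_le_mul_of_nonneg_left _ (by positivity)
          nlinarith [mul_nonneg h5 h3]
      _ = (((q a).den : ℝ) * (1 + 2 * |(q a : ℝ)|)) *
          ((∏ k ∈ s, ((q k).den : ℝ)) * (1 + 2 * ∑ k ∈ s, |(q k : ℝ)|)) := by ring
      _ ≤ _ := mul_le_mul h1 ih (by positivity) (by positivity)

lemma int_scale (q : κ → ℚ) (s : Finset κ) {k : κ} (hk : k ∈ s) :
    ∃ z : ℤ, (z : ℝ) = (∏ k ∈ s, ((q k).den : ℝ)) * (q k : ℝ) := by
  rw [← Finset.mul_prod_erase s _ hk]
  refine ⟨(∏ k ∈ s.erase k, ((q k).den : ℤ)) * (q k).num, ?_⟩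
  have e1 : ((q k : ℚ) : ℝ) = ((q k).num : ℝ) / ((q k).den : ℝ) := by
    conv_lhs => rw [← Rat.num_div_den (q k)]
    push_cast
    rfl
  have h0 : ((q k).den : ℝ) ≠ 0 := by
    have := (q k).den_pos
    positivity
  rw [e1]
  push_cast
  field_simp

/-! ### Small functions -/

variable {m n : ℕ}

/-- The encoding length of the input. -/
def ell (q : Id3 m n → ℚ) : ℕ := ∑ k, bitLength (q k)

/-- Quotients of integers of at most `ℓ` bits. -/
def S1 (f : Fn (Id3 m n)) : Prop := ∀ q : Id3 m n → ℚ, ∃ N D : ℤ, D ≠ 0 ∧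
  f (fun k => ((q k : ℚ) : ℝ)) = (N : ℝ) / (D : ℝ) ∧ |(N : ℝ)| ≤ 2 ^ ell q ∧
  |(D : ℝ)| ≤ 2 ^ ell q

/-- Quotients of integers of at most `2 ℓ + 1` and `2 ℓ` bits. -/
def S2 (f : Fn (Id3 m n)) : Prop := ∀ q : Id3 m n → ℚ, ∃ N D : ℤ, D ≠ 0 ∧
  f (fun k => ((q k : ℚ) : ℝ)) = (N : ℝ) / (D : ℝ) ∧ |(N : ℝ)| ≤ 2 ^ (2 * ell q + 1) ∧
  |(D : ℝ)| ≤ 2 ^ (2 * ell q)

lemma S1.s2 {f : Fn (Id3 m n)} (h : S1 f) : S2 f := by
  intro q
  obtain ⟨N, D, h1, h2, h3, h4⟩ := h q
  refine ⟨N, D, h1, h2, h3.trans ?_, h4.trans ?_⟩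
  · exact pow_le_pow_right₀ (by norm_num) (by omega)
  · exact pow_le_pow_right₀ (by norm_num) (by omega)

lemma S1.mul {f g : Fn (Id3 m n)} (h : S1 f) (h' : S1 g) : S2 (fun x => f x * g x) := by
  intro q
  obtain ⟨N, D, h1, h2, h3, h4⟩ := h q
  obtain ⟨N', D', h1', h2', h3', h4'⟩ := h' q
  refine ⟨N * N', D * D', mul_ne_zero h1 h1', ?_, ?_, ?_⟩
  · simp only [h2, h2']
    push_cast
    rw [div_mul_div_comm]
  · push_cast
    rw [abs_mul, pow_succ, two_mul, pow_add]
    have := mul_le_mul h3 h3' (abs_nonneg _) (by positivity)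
    have h5 : (0 : ℝ) ≤ 2 ^ ell q * 2 ^ ell q := by positivity
    linarith
  · push_cast
    rw [abs_mul, two_mul, pow_add]
    exact mul_le_mul h4 h4' (abs_nonneg _) (by positivity)

lemma S1.sub {f g : Fn (Id3 m n)} (h : S1 f) (h' : S1 g) : S2 (fun x => f x - g x) := by
  intro q
  obtain ⟨N, D, h1, h2, h3, h4⟩ := h q
  obtain ⟨N', D', h1', h2', h3', h4'⟩ := h' q
  have hD : (D : ℝ) ≠ 0 := by exact_mod_cast h1
  have hD' : (D' : ℝ) ≠ 0 := by exact_mod_cast h1'
  refine ⟨N * D' - D * N', D * D', mul_ne_zero h1 h1', ?_, ?_, ?_⟩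
  · simp only [h2, h2']
    push_cast
    rw [div_sub_div _ _ hD hD']
  · push_cast
    refine (abs_sub _ _).trans ?_
    rw [abs_mul, abs_mul, pow_succ, two_mul, pow_add]
    have e1 := mul_le_mul h3 h4' (abs_nonneg _) (by positivity)
    have e2 := mul_le_mul h4 h3' (abs_nonneg _) (by positivity)
    linarith
  · push_cast
    rw [abs_mul, two_mul, pow_add]
    exact mul_le_mul h4 h4' (abs_nonneg _) (by positivity)

lemma S1.neg {f : Fn (Id3 m n)} (h : S1 f) : S1 (fun x => - f x) := by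
  intro q
  obtain ⟨N, D, h1, h2, h3, h4⟩ := h q
  refine ⟨-N, D, h1, ?_, ?_, h4⟩
  · simp only [h2]
    push_cast
    ring
  · push_cast
    rwa [abs_neg]

lemma S1.zero : S1 (fun _ : Id3 m n → ℝ => 0) := by
  intro q
  refine ⟨0, 1, one_ne_zero, by simp, by simp, ?_⟩
  push_cast
  rw [abs_one]
  exact one_le_pow₀ (by norm_num)

lemma S1.one : S1 (fun _ : Id3 m n → ℝ => 1) := by
  intro q
  have : (1 : ℝ) ≤ 2 ^ ell q := one_le_pow₀ (by norm_num)
  refine ⟨1, 1, one_ne_zero, by simp, ?_, ?_⟩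
  · push_cast
    rwa [abs_one]
  · push_cast
    rwa [abs_one]

lemma sum_le_ell (q : Id3 m n → ℚ) (s : Finset (Id3 m n)) :
    ∑ k ∈ s, bitLength (q k) ≤ ell q :=
  Finset.sum_le_sum_of_subset (Finset.subset_univ s)

/-- Partial sums of the input are small. -/
lemma S1.psum (s : Finset (Id3 m n)) : S1 (fun x => ∑ k ∈ s, x k) := by
  intro q
  have hb := prod_bound q s
  have hden : (0 : ℝ) < ∏ k ∈ s, ((q k).den : ℝ) :=
    Finset.prod_pos fun k _ => by exact_mod_cast (q k).den_pos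
  have hsum : (0 : ℝ) ≤ ∑ k ∈ s, |(q k : ℝ)| := by positivity
  have hle : (2 : ℝ) ^ ∑ k ∈ s, bitLength (q k) ≤ 2 ^ ell q :=
    pow_le_pow_right₀ (by norm_num) (sum_le_ell q s)
  have hz : ∃ z : ℤ, (z : ℝ) = (∏ k ∈ s, ((q k).den : ℝ)) * ∑ k ∈ s, (q k : ℝ) := by
    rw [Finset.mul_sum]
    have : ∀ k : s, ∃ z : ℤ, (z : ℝ) = (∏ k ∈ s, ((q k).den : ℝ)) * (q k : ℝ) :=
      fun k => int_scale q s k.2
    choose z hz using this
    refine ⟨∑ k ∈ s.attach, z k, ?_⟩
    push_cast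
    rw [← Finset.sum_attach s]
    exact Finset.sum_congr rfl fun k _ => hz k
  obtain ⟨z, hz⟩ := hz
  refine ⟨z, ∏ k ∈ s, ((q k).den : ℤ), ?_, ?_, ?_, ?_⟩
  · have h : ∀ k ∈ s, ((q k).den : ℤ) ≠ 0 := fun k _ => by
      have := (q k).den_pos
      omega
    exact Finset.prod_ne_zero_iff.2 h
  · rw [hz]
    push_cast
    field_simp
  · rw [hz, abs_mul, abs_of_pos hden]
    refine le_trans ?_ (hb.trans hle)
    apply mul_le_mul_of_nonneg_left _ hden.le
    refine (Finset.abs_sum_le_sum_abs _ _).trans ?_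
    linarith
  · push_cast
    rw [abs_of_pos hden]
    refine le_trans ?_ (hb.trans hle)
    nlinarith

/-! ### Entries of the tableau -/

/-- The row of an input number. -/
def rowOf : Id3 m n → Option (Fin m)
  | .inl p => some p.1
  | .inr (.inl r) => some r
  | .inr (.inr _) => none

/-- The input numbers of a row. -/
def rset (i : Option (Fin m)) : Finset (Id3 m n) := Finset.univ.filter fun k => rowOf k = i

lemma sum_rset_some (g : Id3 m n → ℝ) (r : Fin m) :
    ∑ k ∈ rset (some r), g k = ∑ c, g (.inl (r, c)) + g (.inr (.inl r)) := by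
  unfold rset
  rw [Finset.sum_filter, Fintype.sum_sum_type, Fintype.sum_sum_type, Fintype.sum_prod_type]
  simp only [rowOf, Option.some.injEq, reduceCtorEq, if_false, Finset.sum_const_zero, add_zero,
    Finset.sum_ite_eq', Finset.mem_univ, if_true]
  congr 1
  rw [Finset.sum_eq_single r]
  · simp
  · intro b _ hb
    simp [hb]
  · intro h
    exact absurd (Finset.mem_univ _) h

lemma sum_rset_none (g : Id3 m n → ℝ) :
    ∑ k ∈ rset (none : Option (Fin m)), g k = ∑ c, g (.inr (.inr c)) := by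
  unfold rset
  rw [Finset.sum_filter, Fintype.sum_sum_type, Fintype.sum_sum_type, Fintype.sum_prod_type]
  simp [rowOf]

lemma row_sum_le (x : Id3 m n → ℝ) (i : Option (Fin m)) :
    ∑ y, |wL x i y| ≤ 1 + 2 * ∑ k ∈ rset i, |x k| := by
  rcases i with _ | r
  · rw [sum_rset_none, Fintype.sum_option, Fintype.sum_option, Fintype.sum_sum_type,
      Fintype.sum_option]
    simp only [wL, abs_zero, abs_one, abs_neg, Finset.sum_const_zero]
    have := Finset.abs_sum_le_sum_abs (fun c => x (.inr (.inr c))) (Finset.univ : Finset (Fin n))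
    linarith
  · rw [sum_rset_some, Fintype.sum_option, Fintype.sum_option, Fintype.sum_sum_type,
      Fintype.sum_option]
    have e : ∑ r', |wL x (some r) (some (some (Sum.inl r')))| = 1 := by
      simp only [wL]
      rw [Finset.sum_eq_single r]
      · simp
      · intro b _ hb
        simp [Ne.symm hb]
      · intro h
        exact absurd (Finset.mem_univ _) h
    rw [e]
    simp only [wL, abs_zero, abs_neg]
    have := Finset.abs_sum_le_sum_abs (fun c => x (.inl (r, c))) (Finset.univ : Finset (Fin n))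
    have h2 := abs_nonneg (x (.inr (.inl r)))
    linarith

lemma int_sum {ι : Type*} (s : Finset ι) (f : ι → ℝ) (h : ∀ i ∈ s, ∃ z : ℤ, (z : ℝ) = f i) :
    ∃ z : ℤ, (z : ℝ) = ∑ i ∈ s, f i := by
  classical
  induction s using Finset.induction_on with
  | empty => exact ⟨0, by simp⟩
  | insert a s ha ih =>
    obtain ⟨z1, h1⟩ := h a (Finset.mem_insert_self a s)
    obtain ⟨z2, h2⟩ := ih (fun i hi => h i (Finset.mem_insert_of_mem hi))
    refine ⟨z1 + z2, ?_⟩
    rw [Finset.sum_insert ha, ← h1, ← h2]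
    push_cast
    rfl

lemma int_neg {v : ℝ} (h : ∃ z : ℤ, (z : ℝ) = v) : ∃ z : ℤ, (z : ℝ) = - v := by
  obtain ⟨z, hz⟩ := h
  exact ⟨-z, by rw [← hz]; push_cast; rfl⟩

lemma int_entry (q : Id3 m n → ℚ) (i : Option (Fin m)) (y : Kol (Vr m n)) :
    ∃ z : ℤ, (z : ℝ) = (∏ k ∈ rset i, ((q k).den : ℝ)) *
      wL (fun k => ((q k : ℚ) : ℝ)) i y := by
  have hp : ∀ i : Option (Fin m), ∃ z : ℤ, (z : ℝ) =
      ∏ k ∈ (rset i : Finset (Id3 m n)), ((q k).den : ℝ) := by
    intro i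
    exact ⟨∏ k ∈ rset i, ((q k).den : ℤ), by push_cast; rfl⟩
  rcases i with _ | r <;> rcases y with _ | _ | r' | _ | c
  · exact ⟨0, by simp [wL]⟩
  · simp only [wL, mul_one]
    exact hp none
  · exact ⟨0, by simp [wL]⟩
  · simp only [wL, mul_neg, Finset.mul_sum]
    apply int_neg
    apply int_sum
    intro c _
    exact int_scale q _ (by simp [rset, rowOf])
  · simp only [wL]
    exact int_scale q _ (by simp [rset, rowOf])
  · simp only [wL, mul_neg]
    apply int_neg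
    exact int_scale q _ (by simp [rset, rowOf])
  · exact ⟨0, by simp [wL]⟩
  · simp only [wL]
    split_ifs
    · rw [mul_one]
      exact hp (some r)
    · exact ⟨0, by simp⟩
  · simp only [wL, Finset.mul_sum]
    apply int_sum
    intro c _
    exact int_scale q _ (by simp [rset, rowOf])
  · simp only [wL, mul_neg]
    apply int_neg
    exact int_scale q _ (by simp [rset, rowOf])

/-- The scaled minors are integers of at most `ℓ` bits. -/
lemma dd_int (q : Id3 m n → ℚ) (β : Option (Fin m) → Kol (Vr m n)) :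
    ∃ z : ℤ, (z : ℝ) = (∏ i : Option (Fin m), ∏ k ∈ rset i, ((q k).den : ℝ)) *
      dd (wL (fun k => ((q k : ℚ) : ℝ))) β ∧ |(z : ℝ)| ≤ 2 ^ ell q := by
  choose z hz using int_entry q
  have hdet : ((Matrix.det (Matrix.of fun i j => z i (β j)) : ℤ) : ℝ) =
      (∏ i : Option (Fin m), ∏ k ∈ rset i, ((q k).den : ℝ)) *
        dd (wL (fun k => ((q k : ℚ) : ℝ))) β := by
    unfold dd
    rw [← det_mul_column]
    have : ((Matrix.det (Matrix.of fun i j => z i (β j)) : ℤ) : ℝ) =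
        (Int.castRingHom ℝ) (Matrix.det (Matrix.of fun i j => z i (β j))) := rfl
    rw [this, RingHom.map_det]
    congr 1
    ext i j
    simp only [RingHom.mapMatrix_apply, map_apply, of_apply, eq_intCast]
    exact hz i (β j)
  refine ⟨_, hdet, ?_⟩
  by_cases hinj : Injective β
  · have h1 : ((Matrix.det (Matrix.of fun i j => z i (β j)) : ℤ) : ℝ) =
        Matrix.det (Matrix.of fun i j => (z i (β j) : ℝ)) := by
      have : ((Matrix.det (Matrix.of fun i j => z i (β j)) : ℤ) : ℝ) =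
          (Int.castRingHom ℝ) (Matrix.det (Matrix.of fun i j => z i (β j))) := rfl
      rw [this, RingHom.map_det]
      congr 1
    rw [h1]
    refine (abs_det_le _).trans ?_
    have h2 : ell q = ∑ i : Option (Fin m), ∑ k ∈ (rset i : Finset (Id3 m n)),
        bitLength (q k) := by
      unfold ell rset
      exact (Finset.sum_fiberwise _ _ _).symm
    rw [h2, ← Finset.prod_pow_eq_pow_sum]
    refine Finset.prod_le_prod (fun i _ => Finset.sum_nonneg fun j _ => abs_nonneg _) ?_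
    intro i _
    have hden : (0 : ℝ) < ∏ k ∈ (rset i : Finset (Id3 m n)), ((q k).den : ℝ) :=
      Finset.prod_pos fun k _ => by exact_mod_cast (q k).den_pos
    calc ∑ j, |(Matrix.of fun i j => (z i (β j) : ℝ)) i j|
        = ∑ j, |(z i (β j) : ℝ)| := rfl
      _ = ∑ y ∈ Finset.univ.image β, |(z i y : ℝ)| := by
          rw [Finset.sum_image fun a _ b _ h => hinj h]
      _ ≤ ∑ y, |(z i y : ℝ)| :=
          Finset.sum_le_sum_of_subset_of_nonneg (Finset.subset_univ _) fun _ _ _ => abs_nonneg _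
      _ = (∏ k ∈ rset i, ((q k).den : ℝ)) *
          ∑ y, |wL (fun k => ((q k : ℚ) : ℝ)) i y| := by
          rw [Finset.mul_sum]
          refine Finset.sum_congr rfl fun y _ => ?_
          rw [hz, abs_mul, abs_of_pos hden]
      _ ≤ (∏ k ∈ rset i, ((q k).den : ℝ)) *
          (1 + 2 * ∑ k ∈ rset i, |((q k : ℚ) : ℝ)|) :=
          mul_le_mul_of_nonneg_left (row_sum_le _ i) hden.le
      _ ≤ _ := prod_bound q _
  · have : dd (wL (fun k => ((q k : ℚ) : ℝ))) β = 0 := by
      by_contra h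
      exact hinj (inj_of_ne _ _ h)
    rw [hdet, this, mul_zero, abs_zero]
    positivity

lemma S1.tb (β : Option (Fin m) → Kol (Vr m n)) (i : Option (Fin m)) (y : Kol (Vr m n)) :
    S1 (fun x => CT.tb (wL x) β i y) := by
  intro q
  obtain ⟨N, hN1, hN2⟩ := dd_int q (update β i y)
  obtain ⟨D, hD1, hD2⟩ := dd_int q β
  have hden : (0 : ℝ) < ∏ i : Option (Fin m), ∏ k ∈ (rset i : Finset (Id3 m n)),
      ((q k).den : ℝ) :=
    Finset.prod_pos fun i _ => Finset.prod_pos fun k _ => by exact_mod_cast (q k).den_pos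
  by_cases h0 : dd (wL (fun k => ((q k : ℚ) : ℝ))) β = 0
  · refine ⟨0, 1, one_ne_zero, ?_, by simp, ?_⟩
    · show dd _ _ / dd _ _ = _
      rw [h0, div_zero]
      simp
    · push_cast
      rw [abs_one]
      exact one_le_pow₀ (by norm_num)
  · refine ⟨N, D, ?_, ?_, hN2, hD2⟩
    · intro h
      rw [h] at hD1
      push_cast at hD1
      exact mul_ne_zero hden.ne' h0 hD1.symm
    · show dd _ _ / dd _ _ = _
      rw [hN1, hD1]
      rw [mul_div_mul_left _ _ hden.ne']

/-! ### Encoding length -/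

lemma S2.bit {f : Fn (Id3 m n)} (h : S2 f) (q : Id3 m n → ℚ) :
    ∃ r : ℚ, (r : ℝ) = f (fun k => ((q k : ℚ) : ℝ)) ∧ bitLength r ≤ 4 * ell q + 4 := by
  obtain ⟨N, D, h1, h2, h3, h4⟩ := h q
  refine ⟨(N : ℚ) / (D : ℚ), ?_, ?_⟩
  · rw [h2]
    push_cast
    rfl
  · have hN : N.natAbs ≤ 2 ^ (2 * ell q + 1) := by
      have : ((N.natAbs : ℕ) : ℝ) ≤ 2 ^ (2 * ell q + 1) := by
        have e2 : (N.natAbs : ℝ) = |(N : ℝ)| := by
          rw [← Int.cast_abs, ← Int.natCast_natAbs]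
          rfl
        rw [e2]
        exact h3
      exact_mod_cast this
    have hD : D.natAbs ≤ 2 ^ (2 * ell q) := by
      have : ((D.natAbs : ℕ) : ℝ) ≤ 2 ^ (2 * ell q) := by
        have e2 : (D.natAbs : ℝ) = |(D : ℝ)| := by
          rw [← Int.cast_abs, ← Int.natCast_natAbs]
          rfl
        rw [e2]
        exact h4
      exact_mod_cast this
    have hd : ((N : ℚ) / (D : ℚ)).den ≤ D.natAbs := by
      have := Rat.den_dvd N D
      rw [Rat.divInt_eq_div] at this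
      exact Nat.le_of_dvd (Int.natAbs_pos.2 h1) (Int.natCast_dvd.1 this)
    have hn : ((N : ℚ) / (D : ℚ)).num.natAbs ≤ N.natAbs := by
      have h5 : ((N : ℚ) / (D : ℚ)).num ∣ N := by
        have := Rat.num_dvd N h1
        rw [Rat.divInt_eq_div] at this
        exact this
      rcases eq_or_ne N 0 with h0 | h0
      · simp [h0]
      · exact Int.natAbs_le_of_dvd_ne_zero h5 h0
    have s1 : Nat.size ((N : ℚ) / (D : ℚ)).num.natAbs ≤ 2 * ell q + 2 := by
      rw [Nat.size_le]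
      calc ((N : ℚ) / (D : ℚ)).num.natAbs ≤ 2 ^ (2 * ell q + 1) := hn.trans hN
        _ < 2 ^ (2 * ell q + 2) := Nat.pow_lt_pow_right (by norm_num) (by omega)
    have s2 : Nat.size ((N : ℚ) / (D : ℚ)).den ≤ 2 * ell q + 1 := by
      rw [Nat.size_le]
      calc ((N : ℚ) / (D : ℚ)).den ≤ 2 ^ (2 * ell q) := hd.trans hD
        _ < 2 ^ (2 * ell q + 1) := Nat.pow_lt_pow_right (by norm_num) (by omega)
    unfold bitLength
    omega

lemma ell_ge (hm : 1 ≤ m) (hn : 1 ≤ n) (q : Id3 m n → ℚ) : 6 ≤ ell q := by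
  have h1 : ∀ k, 2 ≤ bitLength (q k) := by
    intro k
    unfold bitLength
    have := Nat.size_pos.2 (q k).den_pos
    omega
  have h2 : ∑ _k : Id3 m n, 2 ≤ ell q := Finset.sum_le_sum fun k _ => h1 k
  have h3 : ∑ _k : Id3 m n, 2 = (m * n + (m + n)) * 2 := by
    simp
  have h4 : 1 ≤ m * n := Nat.mul_pos hm hn
  omega

end Pool.Agent.N597.CT
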