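import Pool.Agent.N597.CT.Core
import Pool.Agent.N597.CT.Num

set_option autoImplicit false

/-!
# Gauss–Jordan elimination by computation trees
-/

namespace Pool.Agent.N597.CT

open Matrix Function Pool.Agent.H558R2

variable {m n : ℕ}

lemma Blk.mono {κ : Type} {P : Fn κ → Prop} {X : Set (κ → ℝ)} {G H : List (Fn κ)} {c c' : ℕ}
    (h : Blk P X G c H) (hc : c ≤ c') : Blk P X G c' H :=
  ⟨h.1, fun Spec d hs => (h.2 Spec d hs).mono subset_rfl (by omega)⟩

/-- An entry of a tableau as a function of the input. -/
noncomputable def tf (β : Fin m → Vr m n) (i : Option (Fin m)) (y : Kol (Vr m n)) :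
    Fn (Id3 m n) :=
  fun x => tb (wL x) (ext β) i y

lemma S2.tf (β : Fin m → Vr m n) (i : Option (Fin m)) (y : Kol (Vr m n)) : S2 (tf β i y) :=
  (S1.tb (ext β) i y).s2

/-- The tableau of `β` is available. -/
def TabAv (X : Set (Id3 m n → ℝ)) (G : List (Fn (Id3 m n))) (β : Fin m → Vr m n) : Prop :=
  ∀ i y, AvX X G (tf β i y)

lemma TabAv.mono {X Y : Set (Id3 m n → ℝ)} {G : List (Fn (Id3 m n))} {β : Fin m → Vr m n}
    (h : TabAv X G β) (hY : Y ⊆ X) : TabAv Y G β := fun i y => (h i y).mono hY

lemma TabAv.append {X : Set (Id3 m n → ℝ)} {G : List (Fn (Id3 m n))} {β : Fin m → Vr m n}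
    (h : TabAv X G β) (H : List (Fn (Id3 m n))) : TabAv X (G ++ H) β :=
  fun i y => (h i y).append H

lemma av_basic {X : Set (Id3 m n → ℝ)} {G : List (Fn (Id3 m n))} {β : Fin m → Vr m n}
    (h0 : ∀ x ∈ X, dd (wL x) (ext β) ≠ 0) (i : Option (Fin m)) (y : Kol (Vr m n))
    (hy : ∃ j, ext β j = y) : AvX X G (tf β i y) := by
  obtain ⟨j, rfl⟩ := hy
  by_cases hij : i = j
  · refine AvX.one X G _ fun x hx => ?_
    unfold tf
    rw [tb_self _ _ (h0 x hx), if_pos hij]
  · refine AvX.zero X G _ fun x hx => ?_
    unfold tf
    rw [tb_self _ _ (h0 x hx), if_neg hij]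

open Classical in
/-- The nonbasic columns. -/
noncomputable def NB (β : Fin m → Vr m n) : Finset (Kol (Vr m n)) :=
  Finset.univ.filter fun y => ¬ ∃ j, ext β j = y

lemma mem_NB (β : Fin m → Vr m n) (y : Kol (Vr m n)) : y ∈ NB β ↔ ¬ ∃ j, ext β j = y := by
  classical
  unfold NB
  rw [Finset.mem_filter]
  exact ⟨fun h => h.2, fun h => ⟨Finset.mem_univ _, h⟩⟩

lemma card_NB (β : Fin m → Vr m n) (hinj : Injective (ext β)) : (NB β).card = n + 2 := by
  classical
  have h1 : NB β = (Finset.univ.image (ext β))ᶜ := by
    ext y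
    simp [NB]
  rw [h1, Finset.card_compl, Finset.card_image_of_injective _ hinj]
  simp only [Fintype.card_option, Fintype.card_sum, Fintype.card_fin, Finset.card_univ]
  omega

/-- The cost of a pivot. -/
def pc (m n : ℕ) : ℕ := (n + 2) * (2 * m + 1)

lemma pivot_blk {X : Set (Id3 m n → ℝ)} {G : List (Fn (Id3 m n))} {β : Fin m → Vr m n}
    (p : Fin m) (k : Vr m n) (h0 : ∀ x ∈ X, dd (wL x) (ext β) ≠ 0)
    (h1 : ∀ x ∈ X, tb (wL x) (ext β) (some p) (some (some k)) ≠ 0) (hav : TabAv X G β) :
    ∃ H, Blk S2 X G (pc m n) H ∧ TabAv X (G ++ H) (update β p k) := by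
  classical
  rcases X.eq_empty_or_nonempty with hX | ⟨x0, hx0⟩
  · subst hX
    refine ⟨[], (Blk.nil _ _).mono (Nat.zero_le _), fun i y => ⟨.zero, fun x hx => ?_⟩⟩
    exact absurd hx (Set.notMem_empty x)
  set β' := update β p k with hβ'
  have h2 : ∀ x ∈ X, dd (wL x) (ext β') ≠ 0 := by
    intro x hx
    rw [hβ', ext_update]
    exact (tb_ne _ _ _ _ (h0 x hx)).1 (h1 x hx)
  have hinj : Injective (ext β') := inj_of_ne _ _ (h2 x0 hx0)
  have hcard := card_NB β' hinj
  -- stage 1
  obtain ⟨H1, b1, a1⟩ := Blk.fam (P := S2) (X := X) (G := G) (fun y => tf β' (some p) y) 1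
    (NB β').toList (by
      intro y _ H
      refine ⟨[tf β' (some p) y], ?_, AvX.last _ _ _⟩
      refine Blk.op .div (tf β (some p) y) (tf β (some p) (some (some k))) _
        ((hav _ _).append H) ((hav _ _).append H) (fun _ x hx => h1 x hx) (fun x hx => ?_)
        (S2.tf _ _ _)
      unfold tf
      rw [hβ', ext_update]
      exact pivot_row _ _ _ _ _ (h0 x hx) (h1 x hx))
  have a1' : ∀ y, AvX X (G ++ H1) (tf β' (some p) y) := by
    intro y
    by_cases hy : ∃ j, ext β' j = y
    · exact av_basic h2 _ y hy
    · exact a1 y (by rw [Finset.mem_toList, mem_NB]; exact hy)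
  -- stage 2
  obtain ⟨H2, b2, a2⟩ := Blk.fam (P := S2) (X := X) (G := G ++ H1)
    (fun z : Option (Fin m) × Kol (Vr m n) => tf β' z.1 z.2) 2
    ((Finset.univ.erase (some p)) ×ˢ (NB β')).toList (by
      rintro ⟨i, y⟩ hz H
      have hi : i ≠ some p := by
        rw [Finset.mem_toList, Finset.mem_product] at hz
        exact Finset.ne_of_mem_erase hz.1
      set pr : Fn (Id3 m n) := fun x => tf β i (some (some k)) x * tf β' (some p) y x with hpr
      have o1 : Blk S2 X (G ++ H1 ++ H) 1 [pr] := by
        refine Blk.op .mul (tf β i (some (some k))) (tf β' (some p) y) pr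
          (((hav _ _).append H1).append H) ((a1' y).append H) (by simp) (fun x _ => rfl) ?_
        exact (S1.tb (ext β) i _).mul (S1.tb (ext β') (some p) y)
      have o2 : Blk S2 X (G ++ H1 ++ H ++ [pr]) 1 [tf β' i y] := by
        refine Blk.op .sub (tf β i y) pr (tf β' i y)
          ((((hav _ _).append H1).append H).append _) (AvX.last _ _ _) (by simp)
          (fun x hx => ?_) (S2.tf _ _ _)
        unfold tf at hpr ⊢
        rw [hpr, hβ', ext_update]
        exact pivot_other _ _ _ _ hi _ _ (h0 x hx) (h1 x hx)
      refine ⟨[pr] ++ [tf β' i y], o1.trans o2, ?_⟩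
      rw [← List.append_assoc]
      exact AvX.last _ _ _)
  refine ⟨H1 ++ H2, ?_, ?_⟩
  · refine (b1.trans b2).mono ?_
    rw [Finset.length_toList, Finset.length_toList, Finset.card_product,
      Finset.card_erase_of_mem (Finset.mem_univ _), hcard]
    simp only [Finset.card_univ, Fintype.card_option, Fintype.card_fin]
    unfold pc
    apply le_of_eq
    rw [Nat.add_sub_cancel]
    ring
  · intro i y
    rw [← List.append_assoc]
    by_cases hy : ∃ j, ext β' j = y
    · exact av_basic h2 _ y hy
    · by_cases hi : i = some p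
      · rw [hi]
        exact (a1' y).append H2
      · exact a2 (i, y) (by
          rw [Finset.mem_toList, Finset.mem_product, mem_NB]
          exact ⟨Finset.mem_erase.2 ⟨hi, Finset.mem_univ i⟩, hy⟩)

/-- If no pivot is possible, then the target is singular. -/
lemma singular_of (w : Matrix (Option (Fin m)) (Kol (Vr m n)) ℝ) (β γ : Fin m → Vr m n)
    (hγ : dd w (ext γ) ≠ 0) (j0 : Fin m) (hk : ∀ p, γ p ≠ β j0)
    (h : ∀ p, (∀ j, β j ≠ γ p) → tb w (ext γ) (some p) (some (some (β j0))) = 0) :
    dd w (ext β) = 0 := by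
  by_contra hβ
  have h1 := tb_orth w (ext γ) (ext β) hγ (some j0) (some (some (β j0)))
  have e : (some (some (β j0)) : Kol (Vr m n)) = ext β (some j0) := rfl
  have h2 : tb w (ext β) (some j0) (some (some (β j0))) = 1 := by
    rw [e, tb_self w _ hβ, if_pos rfl]
  rw [h2, Fintype.sum_option] at h1
  have e2 : ext γ none = ext β none := rfl
  rw [e2, tb_self w _ hβ, if_neg (by simp), mul_zero, zero_add] at h1
  have h3 : ∑ p, tb w (ext γ) (some p) (some (some (β j0))) *
      tb w (ext β) (some j0) (ext γ (some p)) = 0 := by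
    refine Finset.sum_eq_zero fun p _ => ?_
    by_cases hp : ∀ j, β j ≠ γ p
    · rw [h p hp, zero_mul]
    · push Not at hp
      obtain ⟨j, hj⟩ := hp
      have e3 : ext γ (some p) = ext β (some j) := by
        show (some (some (γ p)) : Kol (Vr m n)) = some (some (β j))
        rw [hj]
      rw [e3, tb_self w _ hβ, if_neg, mul_zero]
      intro h4
      rw [Option.some.injEq] at h4
      exact hk p (by rw [h4, hj])
  rw [h3] at h1
  exact one_ne_zero h1

variable {Spec : (Id3 m n → ℝ) → Bool → List ℝ → Prop}

/-- Going to the tableau of `β`. -/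
lemma goto_aux (X0 : Set (Id3 m n → ℝ)) (β : Fin m → Vr m n) (hβ : Injective β) (c : ℕ)
    (K : ∀ (G : List (Fn (Id3 m n))) (X : Set (Id3 m n → ℝ)), (∀ g ∈ G, S2 g) →
      TabAv Set.univ G (b0 m n) → X ⊆ X0 → (∀ x ∈ X, dd (wL x) (ext β) ≠ 0) → TabAv X G β →
      Sol Spec X G c)
    (K0 : ∀ (G : List (Fn (Id3 m n))) (X : Set (Id3 m n → ℝ)), (∀ g ∈ G, S2 g) →
      TabAv Set.univ G (b0 m n) → X ⊆ X0 → (∀ x ∈ X, dd (wL x) (ext β) = 0) → Sol Spec X G c)
    (E : List (Vr m n)) : ∀ (X : Set (Id3 m n → ℝ)) (G : List (Fn (Id3 m n)))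
      (γ : Fin m → Vr m n), X ⊆ X0 → (∀ g ∈ G, S2 g) → TabAv Set.univ G (b0 m n) →
      TabAv X G γ → (∀ x ∈ X, dd (wL x) (ext γ) ≠ 0) → Injective γ → E.Nodup →
      (∀ k ∈ E, (∃ j, β j = k) ∧ ¬ ∃ j, γ j = k) → (∀ j, β j ∈ E ∨ ∃ l, γ l = β j) →
      Sol Spec X G (c + E.length * (m + pc m n)) := by
  classical
  induction E with
  | nil =>
    intro X G γ hX hG hbase hav hdd hinj _ _ hall
    have hall' : ∀ j, ∃ l, γ l = β j := by
      intro j
      rcases hall j with h | h
      · exact absurd h (by simp)
      · exact h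
    choose f hf using hall'
    have hfinj : Injective f := by
      intro a b hab
      apply hβ
      rw [← hf a, ← hf b, hab]
    have hbij : Bijective f := Finite.injective_iff_bijective.1 hfinj
    set π : Equiv.Perm (Fin m) := Equiv.ofBijective f hbij with hπ
    have hβγ : ext β = ext γ ∘ (Equiv.optionCongr π) := by
      ext1 j
      rcases j with _ | j
      · rfl
      · simp only [ext, Function.comp_apply, Equiv.optionCongr_apply, Option.map_some]
        rw [← hf j]
        rfl
    refine (K G X hG hbase hX ?_ ?_).mono subset_rfl (by simp)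
    · intro x hx
      rw [hβγ, dd_perm_ne]
      exact hdd x hx
    · intro i y
      refine (hav (Equiv.optionCongr π i) y).congr fun x hx => ?_
      unfold tf
      rw [hβγ, tb_perm _ _ _ (hdd x hx)]
  | cons k E ih =>
    intro X G γ hX hG hbase hav hdd hinj hnd hE hall
    obtain ⟨⟨j0, hj0⟩, hkγ⟩ := hE k (by simp)
    have main : ∀ ps : List (Fin m), ∀ X1 : Set (Id3 m n → ℝ), X1 ⊆ X →
        (∀ x ∈ X1, ∀ p, p ∉ ps → (∀ j, β j ≠ γ p) →
          tb (wL x) (ext γ) (some p) (some (some k)) = 0) →
        Sol Spec X1 G (c + E.length * (m + pc m n) + pc m n + ps.length) := by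
      intro ps
      induction ps with
      | nil =>
        intro X1 hX1 hz
        refine (K0 G X1 hG hbase (hX1.trans hX) fun x hx => ?_).mono subset_rfl (by omega)
        apply singular_of (wL x) β γ (hdd x (hX1 hx)) j0
        · intro p hp
          exact hkγ ⟨p, by rw [hp, hj0]⟩
        · intro p hp
          rw [hj0]
          exact hz x hx p (by simp) hp
      | cons p ps ihp =>
        intro X1 hX1 hz
        by_cases hp : ∀ j, β j ≠ γ p
        · have e : c + E.length * (m + pc m n) + pc m n + (p :: ps).length =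
              (c + E.length * (m + pc m n) + pc m n + ps.length) + 1 := by
            rw [List.length_cons]
            ring
          rw [e]
          refine Sol.sgn (tf γ (some p) (some (some k))) ((hav _ _).mono hX1) fun t => ?_
          by_cases ht : t = 0
          · refine ihp _ (fun x hx => hX1 hx.1) ?_
            rintro x ⟨hx, hs⟩ q hq hq'
            by_cases hqp : q = p
            · rw [hqp]
              rw [ht, sign_eq_zero_iff] at hs
              exact hs
            · exact hz x hx q (by simp [hqp, hq]) hq'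
          · set X2 : Set (Id3 m n → ℝ) :=
              {x | x ∈ X1 ∧ SignType.sign (tf γ (some p) (some (some k)) x) = t} with hX2
            have hX2X : X2 ⊆ X := fun x hx => hX1 hx.1
            have hne : ∀ x ∈ X2, tb (wL x) (ext γ) (some p) (some (some k)) ≠ 0 := by
              rintro x ⟨-, hs⟩ h0
              apply ht
              rw [← hs]
              unfold tf
              rw [h0, sign_zero]
            obtain ⟨H, hB, hT⟩ := pivot_blk p k (fun x hx => hdd x (hX2X hx)) hne
              (hav.mono hX2X)
            have hS := ih X2 (G ++ H) (update γ p k) (hX2X.trans hX) (by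
              intro g hg
              rcases List.mem_append.1 hg with h | h
              · exact hG g h
              · exact hB.1 g h) (hbase.append H) hT (by
              intro x hx
              rw [ext_update]
              exact (tb_ne _ _ _ _ (hdd x (hX2X hx))).1 (hne x hx)) (by
              intro a b hab
              by_cases ha : a = p
              · by_cases hb : b = p
                · rw [ha, hb]
                · rw [ha, update_self, update_of_ne hb] at hab
                  exact absurd ⟨b, hab.symm⟩ hkγ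
              · by_cases hb : b = p
                · rw [hb, update_self, update_of_ne ha] at hab
                  exact absurd ⟨a, hab⟩ hkγ
                · rw [update_of_ne ha, update_of_ne hb] at hab
                  exact hinj hab) (List.nodup_cons.1 hnd).2 (by
              intro k' hk'
              obtain ⟨h1, h2⟩ := hE k' (by simp [hk'])
              refine ⟨h1, ?_⟩
              rintro ⟨j, hj⟩
              by_cases hjp : j = p
              · rw [hjp, update_self] at hj
                rw [hj] at hnd
                exact (List.nodup_cons.1 hnd).1 hk'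
              · rw [update_of_ne hjp] at hj
                exact h2 ⟨j, hj⟩) (by
              intro j
              rcases hall j with h | ⟨l, hl⟩
              · rcases List.mem_cons.1 h with h | h
                · exact Or.inr ⟨p, by rw [update_self, h]⟩
                · exact Or.inl h
              · refine Or.inr ⟨l, ?_⟩
                rw [update_of_ne, hl]
                rintro rfl
                exact hp j hl.symm)
            exact (hB.2 Spec _ hS).mono subset_rfl (by omega)
        · refine (ihp X1 hX1 fun x hx q hq hq' => ?_).mono subset_rfl (by simp)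
          by_cases hqp : q = p
          · exact absurd (hqp ▸ hq') hp
          · exact hz x hx q (by simp [hqp, hq]) hq'
    refine (main (List.finRange m) X subset_rfl fun x _ p hp _ =>
      absurd (List.mem_finRange p) hp).mono subset_rfl ?_
    rw [List.length_finRange, List.length_cons]
    apply le_of_eq
    ring

/-- The cost of a round. -/
def rc (m n : ℕ) : ℕ := min m (n + 1) * (m + pc m n) + (m + 1) * (n + 2)

/-- Reading the signs of the tableau. -/
lemma read_star {X : Set (Id3 m n → ℝ)} {G : List (Fn (Id3 m n))} {β : Fin m → Vr m n} {c : ℕ}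
    (h0 : ∀ x ∈ X, dd (wL x) (ext β) ≠ 0) (hav : TabAv X G β)
    (K : ∀ ρ, Sol Spec {x | x ∈ X ∧ star (wL x) β = ρ} G c) :
    Sol Spec X G (c + (m + 1) * (n + 2)) := by
  classical
  rcases X.eq_empty_or_nonempty with hX | ⟨x0, hx0⟩
  · subst hX
    exact Sol.empty fun x hx => absurd hx (Set.notMem_empty x)
  have hinj : Injective (ext β) := inj_of_ne _ _ (h0 x0 hx0)
  have hcard := card_NB β hinj
  have hs := Sol.signs (Spec := Spec) (G := G) (c := c)
    (((Finset.univ : Finset (Option (Fin m))) ×ˢ (NB β)).toList.map fun z => tf β z.1 z.2)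
    (X := X) (by
      intro f hf
      obtain ⟨z, -, rfl⟩ := List.mem_map.1 hf
      exact hav _ _) (by
      intro s
      refine (K (fun i y => if ∃ j, ext β j = y then (if ext β i = y then 1 else 0) else
        s (tf β i y))).mono ?_ le_rfl
      rintro x ⟨hx, hxs⟩
      refine ⟨hx, ?_⟩
      ext1 i
      ext1 y
      by_cases hy : ∃ j, ext β j = y
      · rw [if_pos hy]
        obtain ⟨j, rfl⟩ := hy
        unfold star
        rw [tb_self _ _ (h0 x hx)]
        by_cases hij : i = j
        · rw [if_pos hij, if_pos (by rw [hij]), sign_one]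
        · rw [if_neg hij, if_neg (fun h => hij (hinj h)), sign_zero]
      · rw [if_neg hy]
        exact hxs _ (List.mem_map.2 ⟨(i, y), by
          rw [Finset.mem_toList, Finset.mem_product, mem_NB]
          exact ⟨Finset.mem_univ i, hy⟩, rfl⟩))
  rw [List.length_map, Finset.length_toList, Finset.card_product, hcard] at hs
  simpa using hs

/-- One round. -/
theorem round (β : Fin m → Vr m n) (hβ : ∃ x : Id3 m n → ℝ, dd (wL x) (ext β) ≠ 0)
    (X : Set (Id3 m n → ℝ)) (G : List (Fn (Id3 m n))) (c : ℕ) (hG : ∀ g ∈ G, S2 g)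
    (hbase : TabAv Set.univ G (b0 m n))
    (K : ∀ (ρ : Option (Fin m) → Kol (Vr m n) → SignType) (G : List (Fn (Id3 m n)))
      (X' : Set (Id3 m n → ℝ)), (∀ g ∈ G, S2 g) → TabAv Set.univ G (b0 m n) →
      (∀ x ∈ X', x ∈ X ∧ star (wL x) β = ρ) → (ρ none (some none) ≠ 0 → TabAv X' G β) →
      Sol Spec X' G c) :
    Sol Spec X G (c + rc m n) := by
  classical
  obtain ⟨x0, hx0⟩ := hβ
  have hinj := inj_of_ext (wL x0) β hx0
  set E : Finset (Vr m n) := (Finset.univ.image β).filter fun v => v.isRight with hE
  have hmemE : ∀ v, v ∈ E ↔ (∃ j, β j = v) ∧ v.isRight = true := by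
    intro v
    simp [hE]
  have hEm : E.card ≤ m := by
    refine (Finset.card_filter_le _ _).trans (Finset.card_image_le.trans ?_)
    simp
  have hEn : E.card ≤ n + 1 := by
    have : E ⊆ (Finset.univ : Finset (Option (Fin n))).image Sum.inr := by
      intro v hv
      have := ((hmemE v).1 hv).2
      rcases v with r | o
      · simp at this
      · simp
    refine (Finset.card_le_card this).trans (Finset.card_image_le.trans ?_)
    simp
  have hmain := goto_aux (Spec := Spec) X β hinj (c + (m + 1) * (n + 2)) (by
      intro G' X' hG' hbase' hX' hdd hav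
      refine read_star hdd hav fun ρ => ?_
      refine K ρ G' _ hG' hbase' (fun x hx => ⟨hX' hx.1, hx.2⟩) fun _ => ?_
      exact hav.mono fun x hx => hx.1) (by
      intro G' X' hG' hbase' hX' hdd
      refine (K (fun _ _ => 0) G' X' hG' hbase' (fun x hx => ⟨hX' hx, ?_⟩)
        (fun h => absurd rfl h)).mono subset_rfl (by omega)
      ext1 i
      ext1 y
      unfold star tb
      rw [hdd x hx, div_zero, sign_zero]) E.toList X G (b0 m n) subset_rfl hG hbase
      (hbase.mono (Set.subset_univ X)) (fun x _ => by rw [dd_base]; exact one_ne_zero)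
      Sum.inl_injective E.nodup_toList (by
      intro k hk
      rw [Finset.mem_toList, hmemE] at hk
      refine ⟨hk.1, ?_⟩
      rintro ⟨j, hj⟩
      rw [← hj] at hk
      exact absurd hk.2 (by simp [b0])) (by
      intro j
      rcases hj : β j with r | o
      · exact Or.inr ⟨r, rfl⟩
      · left
        rw [Finset.mem_toList, hmemE]
        exact ⟨⟨j, hj⟩, rfl⟩)
  refine hmain.mono subset_rfl ?_
  rw [Finset.length_toList]
  unfold rc
  have h3 : E.card * (m + pc m n) ≤ min m (n + 1) * (m + pc m n) :=
    Nat.mul_le_mul_right _ (le_min hEm hEn)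
  omega

end Pool.Agent.N597.CT
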