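import Pool.Agent.N597.CT.Goto
import Pool.Agent.N597.CT.Cnt

set_option autoImplicit false

/-!
# The halving argument with whole tableaux
-/

namespace Pool.Agent.N597.CT

open Matrix Function Pool.Agent.H558R2

variable {m n : ℕ}

/-- A numbering of the variables. -/
def rkv (m n : ℕ) : Vr m n → ℕ
  | .inl r => r
  | .inr (some c) => m + c
  | .inr none => m + n

lemma rkv_inj : Injective (rkv m n) := by
  intro a b h
  rcases a with r | _ | c <;> rcases b with r' | _ | c' <;> simp only [rkv] at h
  · rw [Fin.ext h]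
  · omega
  · omega
  · omega
  · rfl
  · omega
  · omega
  · omega
  · have : c = c' := Fin.ext (by omega)
    rw [this]

lemma rkv_lt (v : Vr m n) : rkv m n v < m + n + 1 := by
  rcases v with r | _ | c <;> simp only [rkv] <;> omega

/-- A terminal sign pattern. -/
def TermAll (ρ : Option (Fin m) → Kol (Vr m n) → SignType) : Prop :=
  ((∀ j, ρ (some j) none ≠ -1) ∧ (∀ k, ρ none (some (some k)) ≠ -1)) ∨
  (∃ i, ρ (some i) none = -1 ∧ ∀ k, ρ (some i) (some (some k)) ≠ -1) ∨
  (∃ k, ρ none (some (some k)) = -1 ∧ ∀ j, ρ (some j) (some (some k)) ≠ 1)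

lemma termAll_of (β : Fin m → Vr m n) (ρ : Option (Fin m) → Kol (Vr m n) → SignType)
    (h : Term (rkv m n) (m + n + 1) β ρ) : TermAll ρ := by
  rcases h with ⟨h1, h2⟩ | ⟨i, -, h1, h2⟩ | ⟨k, -, h1, h2⟩
  · exact Or.inl ⟨fun j => h1 j (rkv_lt _), fun k => h2 k (rkv_lt _)⟩
  · exact Or.inr (Or.inl ⟨i, h1, fun k => h2 k (rkv_lt _)⟩)
  · exact Or.inr (Or.inr ⟨k, h1, fun j => h2 j (rkv_lt _)⟩)

variable {Spec : (Id3 m n → ℝ) → Bool → List ℝ → Prop}

open Classical in
theorem halve (lc : ℕ)
    (Leaf : ∀ (β : Fin m → Vr m n) (ρ : Option (Fin m) → Kol (Vr m n) → SignType), TermAll ρ →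
      ρ none (some none) ≠ 0 → ∀ (G : List (Fn (Id3 m n))) (X : Set (Id3 m n → ℝ)),
      (∀ g ∈ G, S2 g) → (∀ x ∈ X, star (wL x) β = ρ) → TabAv X G β → Sol Spec X G lc)
    (k : ℕ) : ∀ Z : Finset ((Fin m → Vr m n) → Option (Fin m) → Kol (Vr m n) → SignType),
      (∀ ρ ∈ Z, ∃ x, chi m n x = ρ) → Z.card * 2 ^ k < 3 ^ k →
      ∀ G : List (Fn (Id3 m n)), (∀ g ∈ G, S2 g) → TabAv Set.univ G (b0 m n) →
      Sol Spec {x | chi m n x ∈ Z} G (k * rc m n + lc) := by
  induction k with
  | zero =>
    intro Z _ hZ G _ _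
    have : Z = ∅ := by
      rw [← Finset.card_eq_zero]
      simpa using hZ
    subst this
    exact Sol.empty fun x hx => absurd hx (by simp)
  | succ k ih =>
    intro Z hZr hZ G hG hbase
    by_cases hZe : Z = ∅
    · subst hZe
      exact Sol.empty fun x hx => absurd hx (by simp)
    have hZpos : 0 < Z.card := Finset.card_pos.2 (Finset.nonempty_iff_ne_empty.2 hZe)
    have hcost : (k + 1) * rc m n + lc = (k * rc m n + lc) + rc m n := by ring
    rw [hcost]
    have hsmall : ∀ Z' : Finset ((Fin m → Vr m n) → Option (Fin m) → Kol (Vr m n) → SignType),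
        3 * Z'.card ≤ 2 * Z.card → Z'.card * 2 ^ k < 3 ^ k := by
      intro Z' h
      have h2 : 3 * (Z'.card * 2 ^ k) < 3 * 3 ^ k := by
        calc 3 * (Z'.card * 2 ^ k) = (3 * Z'.card) * 2 ^ k := by ring
          _ ≤ (2 * Z.card) * 2 ^ k := Nat.mul_le_mul_right _ h
          _ = Z.card * 2 ^ (k + 1) := by ring
          _ < 3 ^ (k + 1) := hZ
          _ = 3 * 3 ^ k := by ring
      exact Nat.lt_of_mul_lt_mul_left h2
    by_cases hbal : ∃ s : Fin m → Vr m n, ∀ ρ, 3 * (Z.filter (fun z => z s = ρ)).card ≤ 2 * Z.card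
    · obtain ⟨s, hs⟩ := hbal
      have hex : ∃ x : Id3 m n → ℝ, dd (wL x) (ext s) ≠ 0 := by
        by_contra hcon
        push Not at hcon
        have h1 := hs (fun _ _ => 0)
        have h2 : Z.filter (fun z => z s = fun _ _ => 0) = Z := by
          apply Finset.filter_true_of_mem
          intro z hz
          obtain ⟨x, rfl⟩ := hZr z hz
          ext1 i
          ext1 y
          show SignType.sign (tb (wL x) (ext s) i y) = 0
          unfold tb
          rw [hcon x, div_zero, sign_zero]
        rw [h2] at h1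
        omega
      refine round s hex _ G _ hG hbase fun ρ G' X' hG' hbase' hX' _ => ?_
      refine (ih (Z.filter (fun z => z s = ρ)) (fun z hz => hZr z (Finset.mem_filter.1 hz).1)
        (hsmall _ (hs ρ)) G' hG' hbase').mono (fun x hx => ?_) le_rfl
      exact Finset.mem_filter.2 ⟨(hX' x hx).1, (hX' x hx).2⟩
    · push Not at hbal
      choose σ hσ using hbal
      have hσ' : ∀ s, 3 * (Z.filter (fun z => z s ≠ σ s)).card < Z.card := by
        intro s
        have h1 := Finset.card_filter_add_card_filter_not (s := Z) (fun z => z s = σ s)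
        have h2 := hσ s
        have h3 : (Z.filter (fun z => z s ≠ σ s)).card = (Z.filter (fun z => ¬ z s = σ s)).card :=
          rfl
        omega
      have hloc : Loc2 (fun x : Id3 m n → ℝ => wL x) σ := by
        intro β γ
        have hex : ∃ z ∈ Z, z β = σ β ∧ z γ = σ γ := by
          by_contra hcon
          push Not at hcon
          have hsub : Z ⊆ Z.filter (fun z => z β ≠ σ β) ∪ Z.filter (fun z => z γ ≠ σ γ) := by
            intro z hz
            by_cases hb : z β = σ β
            · exact Finset.mem_union_right _ (Finset.mem_filter.2 ⟨hz, hcon z hz hb⟩)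
            · exact Finset.mem_union_left _ (Finset.mem_filter.2 ⟨hz, hb⟩)
          have h1 := (Finset.card_le_card hsub).trans (Finset.card_union_le _ _)
          have h2 := hσ' β
          have h3 := hσ' γ
          omega
        obtain ⟨z, hz, h1, h2⟩ := hex
        obtain ⟨x, rfl⟩ := hZr z hz
        exact ⟨x, h1, h2⟩
      have hb0 : σ (b0 m n) none (some none) ≠ 0 := by
        rw [nd_iff hloc]
        obtain ⟨x, hx, -⟩ := hloc (b0 m n) (b0 m n)
        exact ⟨x, hx, by rw [dd_base]; exact one_ne_zero⟩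
      obtain ⟨β, hβ, -, hterm⟩ := exists_term (rk := rkv m n) rkv_inj hloc (m + n + 1)
        (b0 m n) hb0
      have hT := termAll_of β _ hterm
      obtain ⟨x1, -, hx1⟩ := (nd_iff hloc β).1 hβ
      refine round β ⟨x1, hx1⟩ _ G _ hG hbase fun ρ G' X' hG' hbase' hX' hav => ?_
      by_cases hρ : ρ = σ β
      · subst hρ
        exact (Leaf β _ hT hβ G' X' hG' (fun x hx => (hX' x hx).2) (hav hβ)).mono subset_rfl
          (by omega)
      · refine (ih (Z.filter (fun z => z β = ρ)) (fun z hz => hZr z (Finset.mem_filter.1 hz).1)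
          (hsmall _ ?_) G' hG' hbase').mono (fun x hx => ?_) le_rfl
        · have h1 : (Z.filter (fun z => z β = ρ)).card ≤
              (Z.filter (fun z => z β ≠ σ β)).card := by
            apply Finset.card_le_card
            intro z hz
            rw [Finset.mem_filter] at hz ⊢
            exact ⟨hz.1, by rw [hz.2]; exact hρ⟩
          have h2 := hσ' β
          omega
        · exact Finset.mem_filter.2 ⟨(hX' x hx).1, (hX' x hx).2⟩

open Classical in
/-- The number of rounds is linear in the logarithm of the number of patterns. -/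
theorem solve_all (lc : ℕ)
    (Leaf : ∀ (β : Fin m → Vr m n) (ρ : Option (Fin m) → Kol (Vr m n) → SignType), TermAll ρ →
      ρ none (some none) ≠ 0 → ∀ (G : List (Fn (Id3 m n))) (X : Set (Id3 m n → ℝ)),
      (∀ g ∈ G, S2 g) → (∀ x ∈ X, star (wL x) β = ρ) → TabAv X G β → Sol Spec X G lc)
    (P : ℕ) (hP : (Set.range (chi m n)).ncard ≤ 2 ^ P)
    (G : List (Fn (Id3 m n))) (hG : ∀ g ∈ G, S2 g) (hbase : TabAv Set.univ G (b0 m n)) :
    Sol Spec Set.univ G ((2 * P + 1) * rc m n + lc) := by
  have hfin : (Set.range (chi m n)).Finite := Set.toFinite _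
  refine (halve lc Leaf (2 * P + 1) hfin.toFinset (by
    intro ρ hρ
    simpa using hρ) ?_ G hG hbase).mono (fun x _ => by simp) le_rfl
  rw [← Set.ncard_eq_toFinset_card _ hfin]
  calc (Set.range (chi m n)).ncard * 2 ^ (2 * P + 1) ≤ 2 ^ P * 2 ^ (2 * P + 1) :=
        Nat.mul_le_mul_right _ hP
    _ = 2 * 8 ^ P := by
        have : (8 : ℕ) = 2 ^ 3 := by norm_num
        rw [this, ← pow_mul, ← pow_add, ← pow_succ']
        congr 1
        ring
    _ < 3 * 9 ^ P := by
        have h1 : 8 ^ P ≤ 9 ^ P := Nat.pow_le_pow_left (by norm_num) P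
        have h2 : 0 < 9 ^ P := by positivity
        omega
    _ = 3 ^ (2 * P + 1) := by
        rw [pow_succ, pow_mul]
        norm_num
        ring

end Pool.Agent.N597.CT
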