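import Pool.Agent.N597.CT.Crit

set_option autoImplicit false

/-!
# The tableau of a linear program

The linear program `min c x`, `A x ≥ b` is written with `x = x' - t (1, …, 1)`, `x' ≥ 0`, `t ≥ 0`
and slack variables. Soundness of terminal tableaux.
-/

namespace Pool.Agent.N597.CT

open Matrix Function

variable {m n : ℕ}

/-- Variables: the slacks, the `x'`, and `t`. -/
abbrev Vr (m n : ℕ) := Fin m ⊕ Option (Fin n)

/-- The input numbers: `A`, `b` and `c`. -/
abbrev Id3 (m n : ℕ) := (Fin m × Fin n) ⊕ (Fin m ⊕ Fin n)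

/-- The matrix of the system; the row `none` is the objective. -/
def wL {S : Type*} [CommRing S] (x : Id3 m n → S) : Matrix (Option (Fin m)) (Kol (Vr m n)) S :=
  fun i j => match i, j with
  | some r, none => - x (.inr (.inl r))
  | none, none => 0
  | some _, some none => 0
  | none, some none => 1
  | some r, some (some (.inl r')) => if r = r' then 1 else 0
  | none, some (some (.inl _)) => 0
  | some r, some (some (.inr (some c))) => - x (.inl (r, c))
  | none, some (some (.inr (some c))) => x (.inr (.inr c))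
  | some r, some (some (.inr none)) => ∑ c, x (.inl (r, c))
  | none, some (some (.inr none)) => - ∑ c, x (.inr (.inr c))

/-- The slack basis. -/
def b0 (m n : ℕ) : Fin m → Vr m n := Sum.inl

lemma wL_base (x : Id3 m n → ℝ) (i j : Option (Fin m)) :
    wL x i (ext (b0 m n) j) = if i = j then 1 else 0 := by
  rcases i with _ | i <;> rcases j with _ | j <;> simp [wL, ext, b0]

lemma dd_base (x : Id3 m n → ℝ) : dd (wL x) (ext (b0 m n)) = 1 := by
  unfold dd
  have : (Matrix.of fun i j => wL x i (ext (b0 m n) j)) = (1 : Matrix _ _ ℝ) := by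
    ext i j
    rw [of_apply, wL_base, Matrix.one_apply]
  rw [this, det_one]

lemma tb_base (x : Id3 m n → ℝ) (i : Option (Fin m)) (y : Kol (Vr m n)) :
    tb (wL x) (ext (b0 m n)) i y = wL x i y := by
  have h := tb_exp (wL x) (ext (b0 m n)) (by rw [dd_base]; exact one_ne_zero) i y
  rw [h]
  simp [wL_base]

/-- A row of the tableau in terms of its entries at the slack columns. -/
lemma row_exp (x : Id3 m n → ℝ) (β : Fin m → Vr m n) (hβ : dd (wL x) (ext β) ≠ 0)
    (i : Option (Fin m)) (y : Kol (Vr m n)) :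
    tb (wL x) (ext β) i y = wL x none y * (if i = none then 1 else 0) +
      ∑ r, wL x (some r) y * tb (wL x) (ext β) i (some (some (.inl r))) := by
  have h := tb_orth (wL x) (ext (b0 m n)) (ext β) (by rw [dd_base]; exact one_ne_zero) i y
  simp only [tb_base] at h
  rw [h, Fintype.sum_option]
  have e : ext (b0 m n) none = ext β none := rfl
  rw [e, tb_self _ _ hβ]
  rfl

lemma row_nonneg (x : Id3 m n → ℝ) (β : Fin m → Vr m n) (hβ : dd (wL x) (ext β) ≠ 0)
    (i : Option (Fin m)) (h : ∀ k, 0 ≤ tb (wL x) (ext β) i (some (some k))) (c : Fin n) :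
    ∑ r, tb (wL x) (ext β) i (some (some (.inl r))) * x (.inl (r, c)) =
      x (.inr (.inr c)) * (if i = none then 1 else 0) := by
  have h1 : ∀ c, tb (wL x) (ext β) i (some (some (.inr (some c)))) =
      x (.inr (.inr c)) * (if i = none then 1 else 0) -
        ∑ r, tb (wL x) (ext β) i (some (some (.inl r))) * x (.inl (r, c)) := by
    intro c
    rw [row_exp x β hβ i]
    simp only [wL, neg_mul, Finset.sum_neg_distrib]
    rw [sub_eq_add_neg]
    congr 2
    exact Finset.sum_congr rfl fun r _ => mul_comm _ _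
  have h2 : tb (wL x) (ext β) i (some (some (.inr none))) =
      - ∑ c, tb (wL x) (ext β) i (some (some (.inr (some c)))) := by
    rw [row_exp x β hβ i]
    simp only [h1, wL, Finset.sum_sub_distrib, Finset.sum_mul]
    rw [Finset.sum_comm (s := (Finset.univ : Finset (Fin n)))]
    have e : ∀ r : Fin m, ∀ c : Fin n, x (.inl (r, c)) *
        tb (wL x) (ext β) i (some (some (.inl r))) =
        tb (wL x) (ext β) i (some (some (.inl r))) * x (.inl (r, c)) := fun r c => mul_comm _ _
    simp only [e]
    rw [← Finset.sum_mul]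
    ring
  have h3 : ∑ c, tb (wL x) (ext β) i (some (some (.inr (some c)))) ≤ 0 := by
    have := h (.inr none)
    rw [h2] at this
    linarith
  have h4 : tb (wL x) (ext β) i (some (some (.inr (some c)))) = 0 := by
    refine le_antisymm ?_ (h _)
    exact (Finset.single_le_sum (f := fun c => tb (wL x) (ext β) i
      (some (some (.inr (some c))))) (fun c _ => h _) (Finset.mem_univ c)).trans h3
  rw [h1] at h4
  linarith

lemma row_rhs (x : Id3 m n → ℝ) (β : Fin m → Vr m n) (hβ : dd (wL x) (ext β) ≠ 0)
    (i : Option (Fin m)) : tb (wL x) (ext β) i none =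
      - ∑ r, x (.inr (.inl r)) * tb (wL x) (ext β) i (some (some (.inl r))) := by
  rw [row_exp x β hβ i]
  simp only [wL, neg_mul, Finset.sum_neg_distrib, zero_mul, zero_add]

/-- The values of the variables that belong to the column `y`. -/
noncomputable def colv (x : Id3 m n → ℝ) (β : Fin m → Vr m n) (y : Kol (Vr m n)) (v : Vr m n) :
    ℝ :=
  ∑ j, if β j = v then tb (wL x) (ext β) (some j) y else 0

lemma colv_sum (x : Id3 m n → ℝ) (β : Fin m → Vr m n) (y : Kol (Vr m n)) (g : Vr m n → ℝ) :
    ∑ v, colv x β y v * g v = ∑ j, tb (wL x) (ext β) (some j) y * g (β j) := by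
  unfold colv
  simp only [Finset.sum_mul]
  rw [Finset.sum_comm]
  refine Finset.sum_congr rfl fun j _ => ?_
  rw [Finset.sum_eq_single (β j)]
  · simp
  · intro v _ hv
    rw [if_neg (Ne.symm hv), zero_mul]
  · intro h
    exact absurd (Finset.mem_univ _) h

lemma colv_exp (x : Id3 m n → ℝ) (β : Fin m → Vr m n) (hβ : dd (wL x) (ext β) ≠ 0)
    (y : Kol (Vr m n)) (r : Option (Fin m)) :
    wL x r y = tb (wL x) (ext β) none y * (if r = none then 1 else 0) +
      ∑ v, colv x β y v * wL x r (some (some v)) := by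
  rw [colv_sum x β y (fun v => wL x r (some (some v))), tb_exp (wL x) (ext β) hβ r y,
    Fintype.sum_option]
  congr 1
  congr 1
  rcases r with _ | r
  · simp [wL, ext]
  · simp [wL, ext]

lemma sum_row (x : Id3 m n → ℝ) (η : Vr m n → ℝ) (r : Fin m) :
    ∑ v, η v * wL x (some r) (some (some v)) =
      η (.inl r) - ∑ c, x (.inl (r, c)) * (η (.inr (some c)) - η (.inr none)) := by
  rw [Fintype.sum_sum_type, Fintype.sum_option]
  have e1 : ∑ r', η (.inl r') * wL x (some r) (some (some (.inl r'))) = η (.inl r) := by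
    simp [wL]
  rw [e1]
  simp only [wL, mul_sub, Finset.sum_sub_distrib, mul_neg, Finset.sum_neg_distrib]
  rw [Finset.mul_sum]
  have e2 : ∑ i, η (.inr none) * x (.inl (r, i)) = ∑ i, x (.inl (r, i)) * η (.inr none) :=
    Finset.sum_congr rfl fun i _ => mul_comm _ _
  have e3 : ∑ i, η (.inr (some i)) * x (.inl (r, i)) =
      ∑ i, x (.inl (r, i)) * η (.inr (some i)) := Finset.sum_congr rfl fun i _ => mul_comm _ _
  rw [e2, e3]
  ring

lemma sum_obj (x : Id3 m n → ℝ) (η : Vr m n → ℝ) :
    ∑ v, η v * wL x none (some (some v)) =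
      ∑ c, x (.inr (.inr c)) * (η (.inr (some c)) - η (.inr none)) := by
  rw [Fintype.sum_sum_type, Fintype.sum_option]
  have e1 : ∑ r', η (.inl r') * wL x none (some (some (.inl r'))) = 0 := by
    simp [wL]
  rw [e1]
  simp only [wL, mul_sub, Finset.sum_sub_distrib, mul_neg]
  rw [Finset.mul_sum]
  have e2 : ∑ i, η (.inr none) * x (.inr (.inr i)) = ∑ i, x (.inr (.inr i)) * η (.inr none) :=
    Finset.sum_congr rfl fun i _ => mul_comm _ _
  have e3 : ∑ i, η (.inr (some i)) * x (.inr (.inr i)) =
      ∑ i, x (.inr (.inr i)) * η (.inr (some i)) := Finset.sum_congr rfl fun i _ => mul_comm _ _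
  rw [e2, e3]
  ring

/-! ### Certificates -/

/-- `X` and `Y` are solutions of the linear program and of its dual with the same value. -/
def OptPair (x : Id3 m n → ℝ) (X : Fin n → ℝ) (Y : Fin m → ℝ) : Prop :=
  (∀ r, x (.inr (.inl r)) ≤ ∑ c, x (.inl (r, c)) * X c) ∧ (∀ r, 0 ≤ Y r) ∧
  (∀ c, ∑ r, Y r * x (.inl (r, c)) = x (.inr (.inr c))) ∧
  ∑ c, x (.inr (.inr c)) * X c = ∑ r, x (.inr (.inl r)) * Y r

/-- `Y` shows that the linear program is infeasible. -/
def FarkasY (x : Id3 m n → ℝ) (Y : Fin m → ℝ) : Prop :=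
  (∀ r, 0 ≤ Y r) ∧ (∀ c, ∑ r, Y r * x (.inl (r, c)) = 0) ∧ 0 < ∑ r, x (.inr (.inl r)) * Y r

/-- `d` is a direction of improvement. -/
def RayD (x : Id3 m n → ℝ) (d : Fin n → ℝ) : Prop :=
  (∀ r, 0 ≤ ∑ c, x (.inl (r, c)) * d c) ∧ ∑ c, x (.inr (.inr c)) * d c < 0

/-- The solution that belongs to a tableau. -/
noncomputable def solX (x : Id3 m n → ℝ) (β : Fin m → Vr m n) (c : Fin n) : ℝ :=
  colv x β none (.inr (some c)) - colv x β none (.inr none)

/-- Entries of the row `i` at the slack columns. -/
noncomputable def solY (x : Id3 m n → ℝ) (β : Fin m → Vr m n) (i : Option (Fin m)) (r : Fin m) :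
    ℝ :=
  tb (wL x) (ext β) i (some (some (.inl r)))

/-- The direction of the column `k`, for all variables. -/
noncomputable def zet (x : Id3 m n → ℝ) (β : Fin m → Vr m n) (k v : Vr m n) : ℝ :=
  (if v = k then 1 else 0) - colv x β (some (some k)) v

/-- The direction that belongs to the column `k`. -/
noncomputable def solD (x : Id3 m n → ℝ) (β : Fin m → Vr m n) (k : Vr m n) (c : Fin n) : ℝ :=
  zet x β k (.inr (some c)) - zet x β k (.inr none)

theorem sound_opt (x : Id3 m n → ℝ) (β : Fin m → Vr m n) (hβ : dd (wL x) (ext β) ≠ 0)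
    (h1 : ∀ j, 0 ≤ tb (wL x) (ext β) (some j) none)
    (h2 : ∀ k, 0 ≤ tb (wL x) (ext β) none (some (some k))) :
    OptPair x (solX x β) (solY x β none) := by
  refine ⟨fun r => ?_, fun r => h2 _, fun c => ?_, ?_⟩
  · have e := colv_exp x β hβ none (some r)
    rw [sum_row] at e
    have e2 : wL x (some r) none = - x (.inr (.inl r)) := rfl
    rw [e2, if_neg (by simp), mul_zero, zero_add] at e
    have h3 : 0 ≤ colv x β none (.inl r) := by
      unfold colv
      refine Finset.sum_nonneg fun j _ => ?_
      split_ifs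
      · exact h1 j
      · exact le_rfl
    unfold solX
    linarith
  · have := row_nonneg x β hβ none h2 c
    rw [if_pos rfl, mul_one] at this
    exact this
  · have e := colv_exp x β hβ none none
    rw [sum_obj] at e
    have e2 : wL x none none = 0 := rfl
    rw [e2, if_pos rfl, mul_one, row_rhs x β hβ none] at e
    unfold solX solY
    linarith

theorem sound_farkas (x : Id3 m n → ℝ) (β : Fin m → Vr m n) (hβ : dd (wL x) (ext β) ≠ 0)
    (i : Fin m) (h1 : tb (wL x) (ext β) (some i) none < 0)
    (h2 : ∀ k, 0 ≤ tb (wL x) (ext β) (some i) (some (some k))) :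
    FarkasY x (solY x β (some i)) := by
  refine ⟨fun r => h2 _, fun c => ?_, ?_⟩
  · have := row_nonneg x β hβ (some i) h2 c
    rw [if_neg (by simp), mul_zero] at this
    exact this
  · rw [row_rhs x β hβ (some i)] at h1
    unfold solY
    linarith

theorem sound_ray (x : Id3 m n → ℝ) (β : Fin m → Vr m n) (hβ : dd (wL x) (ext β) ≠ 0)
    (k : Vr m n) (h1 : tb (wL x) (ext β) none (some (some k)) < 0)
    (h2 : ∀ j, tb (wL x) (ext β) (some j) (some (some k)) ≤ 0) :
    RayD x (solD x β k) := by
  have hz : ∀ r : Option (Fin m), ∑ v, zet x β k v * wL x r (some (some v)) =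
      tb (wL x) (ext β) none (some (some k)) * (if r = none then 1 else 0) := by
    intro r
    have e := colv_exp x β hβ (some (some k)) r
    unfold zet
    simp only [sub_mul, Finset.sum_sub_distrib]
    have e2 : ∑ v, (if v = k then (1 : ℝ) else 0) * wL x r (some (some v)) =
        wL x r (some (some k)) := by simp
    rw [e2, e]
    ring
  have hnn : ∀ v, 0 ≤ zet x β k v := by
    intro v
    unfold zet colv
    have h3 : ∑ j, (if β j = v then tb (wL x) (ext β) (some j) (some (some k)) else 0) ≤ 0 := by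
      refine Finset.sum_nonpos fun j _ => ?_
      split_ifs
      · exact h2 j
      · exact le_rfl
    split_ifs <;> linarith
  refine ⟨fun r => ?_, ?_⟩
  · have e := hz (some r)
    rw [sum_row, if_neg (by simp), mul_zero] at e
    have := hnn (.inl r)
    unfold solD
    linarith
  · have e := hz none
    rw [sum_obj, if_pos rfl, mul_one] at e
    unfold solD
    rw [e]
    exact h1

end Pool.Agent.N597.CT
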