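import Pool.Agent.N597.CT.Halve

set_option autoImplicit false

/-!
# Output of the solutions, and computation of the first tableau
-/

namespace Pool.Agent.N597.CT

open Matrix Function Pool.Agent.H558R2

variable {m n : ℕ}

/-- The specification of the computation trees. -/
def Spc (x : Id3 m n → ℝ) (ans : Bool) (nums : List ℝ) : Prop :=
  (∀ v ∈ nums, ∃ g : Fn (Id3 m n), S2 g ∧ v = g x) ∧
  (ans = true → ∃ X Y, OptPair x X Y ∧ ∃ l, nums = l ++ (List.ofFn X ++ List.ofFn Y)) ∧
  (ans = false → (∃ Y, FarkasY x Y ∧ ∃ l, nums = l ++ List.ofFn Y) ∨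
    (∃ d, RayD x d ∧ ∃ l, nums = l ++ List.ofFn d))

lemma colv_cases (β : Fin m → Vr m n) (hβ : Injective β) (y : Kol (Vr m n)) (v : Vr m n) :
    (∃ j, β j = v ∧ ∀ x : Id3 m n → ℝ, colv x β y v = tb (wL x) (ext β) (some j) y) ∨
      ((¬ ∃ j, β j = v) ∧ ∀ x : Id3 m n → ℝ, colv x β y v = 0) := by
  by_cases h : ∃ j, β j = v
  · obtain ⟨j, hj⟩ := h
    refine Or.inl ⟨j, hj, fun x => ?_⟩
    unfold colv
    rw [Finset.sum_eq_single j]
    · rw [if_pos hj]
    · intro i _ hi
      rw [if_neg]
      intro h'
      exact hi (hβ (by rw [h', hj]))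
    · intro h'
      exact absurd (Finset.mem_univ _) h'
  · refine Or.inr ⟨h, fun x => ?_⟩
    unfold colv
    refine Finset.sum_eq_zero fun j _ => ?_
    rw [if_neg]
    intro h'
    exact h ⟨j, h'⟩

lemma s1_colv (β : Fin m → Vr m n) (hβ : Injective β) (y : Kol (Vr m n)) (v : Vr m n) :
    S1 (fun x => colv x β y v) := by
  rcases colv_cases β hβ y v with ⟨j, -, h⟩ | ⟨-, h⟩
  · simp only [h]
    exact S1.tb (ext β) (some j) y
  · simp only [h]
    exact S1.zero

lemma av_colv {X : Set (Id3 m n → ℝ)} {G : List (Fn (Id3 m n))} {β : Fin m → Vr m n}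
    (hβ : Injective β) (hav : TabAv X G β) (y : Kol (Vr m n)) (v : Vr m n) :
    AvX X G (fun x => colv x β y v) := by
  rcases colv_cases β hβ y v with ⟨j, -, h⟩ | ⟨-, h⟩
  · exact (hav (some j) y).congr fun x _ => h x
  · exact AvX.zero X G _ fun x _ => h x

lemma zet_cases (β : Fin m → Vr m n) (hβ : Injective β) (k : Vr m n) (hk : ¬ ∃ j, β j = k)
    (v : Vr m n) :
    (∀ x : Id3 m n → ℝ, zet x β k v = 1) ∨ (∀ x : Id3 m n → ℝ, zet x β k v = 0) ∨
    (∃ j, ∀ x : Id3 m n → ℝ, zet x β k v = - tb (wL x) (ext β) (some j) (some (some k))) := by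
  unfold zet
  rcases colv_cases β hβ (some (some k)) v with ⟨j, hj, h⟩ | ⟨hv, h⟩
  · right; right
    have hvk : v ≠ k := by
      rintro rfl
      exact hk ⟨j, hj⟩
    exact ⟨j, fun x => by rw [h, if_neg hvk, zero_sub]⟩
  · by_cases hvk : v = k
    · exact Or.inl fun x => by rw [h, if_pos hvk, sub_zero]
    · exact Or.inr (Or.inl fun x => by rw [h, if_neg hvk, sub_zero])

lemma s1_zet (β : Fin m → Vr m n) (hβ : Injective β) (k : Vr m n) (hk : ¬ ∃ j, β j = k)
    (v : Vr m n) : S1 (fun x => zet x β k v) := by
  rcases zet_cases β hβ k hk v with h | h | ⟨j, h⟩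
  · simp only [h]
    exact S1.one
  · simp only [h]
    exact S1.zero
  · simp only [h]
    exact (S1.tb (ext β) (some j) _).neg

lemma map_finRange {k : ℕ} {κ : Type} (f : Fin k → Fn κ) (x : κ → ℝ) :
    ((List.finRange k).map f).map (fun g => g x) = List.ofFn fun i => f i x := by
  rw [List.ofFn_eq_map, List.map_map]
  rfl

/-- The leaves. -/
theorem leaf (β : Fin m → Vr m n) (ρ : Option (Fin m) → Kol (Vr m n) → SignType)
    (hT : TermAll ρ) (hρ : ρ none (some none) ≠ 0) (G : List (Fn (Id3 m n)))
    (X : Set (Id3 m n → ℝ)) (hG : ∀ g ∈ G, S2 g) (hX : ∀ x ∈ X, star (wL x) β = ρ)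
    (hav : TabAv X G β) : Sol Spc X G (m + n) := by
  rcases X.eq_empty_or_nonempty with hX0 | ⟨x0, hx0⟩
  · subst hX0
    exact Sol.empty fun x hx => absurd hx (Set.notMem_empty x)
  have hdd : ∀ x ∈ X, dd (wL x) (ext β) ≠ 0 := by
    intro x hx
    rw [← star_nd, hX x hx]
    exact hρ
  have hinj : Injective β := inj_of_ext (wL x0) β (hdd x0 hx0)
  have hnum : ∀ H : List (Fn (Id3 m n)), (∀ g ∈ H, S2 g) → ∀ x : Id3 m n → ℝ,
      ∀ v ∈ (G ++ H).map (fun g => g x), ∃ g : Fn (Id3 m n), S2 g ∧ v = g x := by
    intro H hH x v hv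
    obtain ⟨g, hg, rfl⟩ := List.mem_map.1 hv
    rcases List.mem_append.1 hg with h | h
    · exact ⟨g, hG g h, rfl⟩
    · exact ⟨g, hH g h, rfl⟩
  rcases hT with ⟨h1, h2⟩ | ⟨i, h1, h2⟩ | ⟨k, h1, h2⟩
  · -- optimal
    have b1 : Blk S2 X G (List.finRange n).length
        ((List.finRange n).map fun c => fun x => solX x β c) := by
      refine Blk.fam_out _ _ G fun c _ H => ?_
      refine Blk.op .sub (fun x => colv x β none (.inr (some c)))
        (fun x => colv x β none (.inr none)) _ ((av_colv hinj hav _ _).append H)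
        ((av_colv hinj hav _ _).append H) (by simp) (fun x _ => rfl) ?_
      exact (s1_colv β hinj _ _).sub (s1_colv β hinj _ _)
    have b2 : Blk S2 X (G ++ (List.finRange n).map fun c => fun x => solX x β c)
        (List.finRange m).length ((List.finRange m).map fun r => fun x => solY x β none r) := by
      refine Blk.fam_out _ _ _ fun r _ H => ?_
      refine Blk.op .add (tf β none (some (some (.inl r)))) (fun _ => 0) _
        (((hav _ _).append _).append H) (AvX.zero _ _ _ fun _ _ => rfl) (by simp)
        (fun x _ => ?_) (S2.tf β none _)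
      show solY x β none r = tf β none _ x + 0
      rw [add_zero]
      rfl
    have b := b1.trans b2
    refine (b.2 Spc 0 (Sol.answer true fun x hx => ⟨hnum _ b.1 x, fun _ => ?_, by simp⟩)).mono
      subset_rfl ?_
    · have hs := hX x hx
      refine ⟨solX x β, solY x β none, sound_opt x β (hdd x hx) (fun j => ?_) (fun k => ?_),
        G.map (fun g => g x), ?_⟩
      · have := h1 j
        rw [← hs] at this
        exact ne_neg.1 this
      · have := h2 k
        rw [← hs] at this
        exact ne_neg.1 this
      · rw [List.map_append, List.map_append, map_finRange, map_finRange]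
    · rw [List.length_finRange, List.length_finRange]
      omega
  · -- infeasible
    have b : Blk S2 X G (List.finRange m).length
        ((List.finRange m).map fun r => fun x => solY x β (some i) r) := by
      refine Blk.fam_out _ _ _ fun r _ H => ?_
      refine Blk.op .add (tf β (some i) (some (some (.inl r)))) (fun _ => 0) _
        ((hav _ _).append H) (AvX.zero _ _ _ fun _ _ => rfl) (by simp)
        (fun x _ => ?_) (S2.tf β (some i) _)
      show solY x β (some i) r = tf β (some i) _ x + 0
      rw [add_zero]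
      rfl
    refine (b.2 Spc 0 (Sol.answer false fun x hx => ⟨hnum _ b.1 x, by simp, fun _ =>
      Or.inl ?_⟩)).mono subset_rfl ?_
    · have hs := hX x hx
      refine ⟨solY x β (some i), sound_farkas x β (hdd x hx) i ?_ (fun k => ?_),
        G.map (fun g => g x), ?_⟩
      · have := h1
        rw [← hs] at this
        exact sign_eq_neg_one_iff.1 this
      · have := h2 k
        rw [← hs] at this
        exact ne_neg.1 this
      · rw [List.map_append, map_finRange]
    · rw [List.length_finRange]
      omega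
  · -- unbounded direction
    have hk : ¬ ∃ j, β j = k := by
      rintro ⟨j, hj⟩
      have e := star_basic (wL x0) β (hdd x0 hx0) j k none hj (by simp)
      have h3 := h1
      rw [← hX x0 hx0] at h3
      unfold star at h3
      rw [e, sign_zero] at h3
      exact absurd h3 (by decide)
    obtain ⟨H1, b1, a1⟩ := Blk.fam (P := S2) (X := X) (G := G)
      (fun (j : Fin m) => fun x => - tb (wL x) (ext β) (some j) (some (some k))) 1
      (List.finRange m) (by
        intro j _ H
        refine ⟨[fun x => - tb (wL x) (ext β) (some j) (some (some k))], ?_, AvX.last _ _ _⟩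
        refine Blk.op .sub (fun _ => 0) (tf β (some j) (some (some k))) _
          (AvX.zero _ _ _ fun _ _ => rfl) ((hav _ _).append H) (by simp) (fun x _ => ?_)
          (S1.tb (ext β) (some j) _).neg.s2
        show - tb (wL x) (ext β) (some j) (some (some k)) = 0 - tf β (some j) _ x
        rw [zero_sub]
        rfl)
    have az : ∀ v, AvX X (G ++ H1) (fun x => zet x β k v) := by
      intro v
      rcases zet_cases β hinj k hk v with h | h | ⟨j, h⟩
      · exact AvX.one _ _ _ fun x _ => h x
      · exact AvX.zero _ _ _ fun x _ => h x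
      · exact (a1 j (List.mem_finRange j)).congr fun x _ => h x
    have b2 : Blk S2 X (G ++ H1) (List.finRange n).length
        ((List.finRange n).map fun c => fun x => solD x β k c) := by
      refine Blk.fam_out _ _ _ fun c _ H => ?_
      refine Blk.op .sub (fun x => zet x β k (.inr (some c)))
        (fun x => zet x β k (.inr none)) _ ((az _).append H)
        ((az _).append H) (by simp) (fun x _ => rfl) ?_
      exact (s1_zet β hinj k hk _).sub (s1_zet β hinj k hk _)
    have b := b1.trans b2
    refine (b.2 Spc 0 (Sol.answer false fun x hx => ⟨hnum _ b.1 x, by simp, fun _ =>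
      Or.inr ?_⟩)).mono subset_rfl ?_
    · have hs := hX x hx
      refine ⟨solD x β k, sound_ray x β (hdd x hx) k ?_ (fun j => ?_),
        (G ++ H1).map (fun g => g x), ?_⟩
      · have := h1
        rw [← hs] at this
        exact sign_eq_neg_one_iff.1 this
      · have := h2 j
        rw [← hs] at this
        exact ne_pos.1 this
      · rw [← List.append_assoc, List.map_append, map_finRange]
    · rw [List.length_finRange, List.length_finRange]
      omega

/-! ### The first tableau -/

lemma psum_row (X : Set (Id3 m n → ℝ)) (r : Fin m) (s : Finset (Fin n)) :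
    ∀ G : List (Fn (Id3 m n)), ∃ H, Blk S2 X G s.card H ∧
      AvX X (G ++ H) (fun x => ∑ c ∈ s, x (.inl (r, c))) := by
  classical
  induction s using Finset.induction_on with
  | empty =>
    intro G
    refine ⟨[], by simpa using Blk.nil X G, AvX.zero _ _ _ fun x _ => by simp⟩
  | insert a s ha ih =>
    intro G
    obtain ⟨H, b, av⟩ := ih G
    have hS : S2 (fun x : Id3 m n → ℝ => ∑ c ∈ insert a s, x (.inl (r, c))) := by
      have h := (S1.psum (m := m) (n := n)
        ((insert a s).map ⟨fun c => Sum.inl (r, c), fun c c' h => by simpa using h⟩)).s2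
      simpa only [Finset.sum_map, Function.Embedding.coeFn_mk] using h
    refine ⟨H ++ [fun x => ∑ c ∈ insert a s, x (.inl (r, c))], ?_, ?_⟩
    · rw [Finset.card_insert_of_notMem ha]
      refine b.trans ?_
      refine Blk.op .add (fun x => ∑ c ∈ s, x (.inl (r, c))) (fun x => x (.inl (r, a))) _ av
        (AvX.input _ _ _) (by simp) (fun x _ => ?_) hS
      rw [Finset.sum_insert ha, add_comm]
      rfl
    · rw [← List.append_assoc]
      exact AvX.last _ _ _

lemma psum_obj (X : Set (Id3 m n → ℝ)) (s : Finset (Fin n)) :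
    ∀ G : List (Fn (Id3 m n)), ∃ H, Blk S2 X G s.card H ∧
      AvX X (G ++ H) (fun x => - ∑ c ∈ s, x (.inr (.inr c))) := by
  classical
  induction s using Finset.induction_on with
  | empty =>
    intro G
    refine ⟨[], by simpa using Blk.nil X G, AvX.zero _ _ _ fun x _ => by simp⟩
  | insert a s ha ih =>
    intro G
    obtain ⟨H, b, av⟩ := ih G
    have hS : S2 (fun x : Id3 m n → ℝ => - ∑ c ∈ insert a s, x (.inr (.inr c))) := by
      have h := (S1.psum (m := m) (n := n)
        ((insert a s).map ⟨fun c => Sum.inr (Sum.inr c), fun c c' h => by simpa using h⟩)).neg.s2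
      simpa only [Finset.sum_map, Function.Embedding.coeFn_mk] using h
    refine ⟨H ++ [fun x => - ∑ c ∈ insert a s, x (.inr (.inr c))], ?_, ?_⟩
    · rw [Finset.card_insert_of_notMem ha]
      refine b.trans ?_
      refine Blk.op .sub (fun x => - ∑ c ∈ s, x (.inr (.inr c))) (fun x => x (.inr (.inr a))) _ av
        (AvX.input _ _ _) (by simp) (fun x _ => ?_) hS
      rw [Finset.sum_insert ha]
      show _ = - ∑ c ∈ s, x (.inr (.inr c)) - x (.inr (.inr a))
      ring
    · rw [← List.append_assoc]
      exact AvX.last _ _ _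

/-- The first tableau can be computed by `2 m n + m + n` operations. -/
theorem base_blk (m n : ℕ) : ∃ H : List (Fn (Id3 m n)),
    Blk S2 Set.univ [] (2 * (m * n) + m + n) H ∧ TabAv Set.univ H (b0 m n) := by
  obtain ⟨H1, b1, a1⟩ := Blk.fam (P := S2) (X := (Set.univ : Set (Id3 m n → ℝ))) (G := [])
    (fun (r : Fin m) => fun x => - x (.inr (.inl r))) 1 (List.finRange m) (by
      intro r _ H
      refine ⟨[fun x => - x (.inr (.inl r))], ?_, AvX.last _ _ _⟩
      refine Blk.op .sub (fun _ => 0) (fun x => x (.inr (.inl r))) _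
        (AvX.zero _ _ _ fun _ _ => rfl) (AvX.input _ _ _) (by simp) (fun x _ => ?_) ?_
      · show - x (.inr (.inl r)) = 0 - x (.inr (.inl r))
        rw [zero_sub]
      · have := (S1.psum (m := m) (n := n) {Sum.inr (Sum.inl r)}).neg.s2
        simpa using this)
  obtain ⟨H2, b2, a2⟩ := Blk.fam (P := S2) (X := (Set.univ : Set (Id3 m n → ℝ))) (G := [] ++ H1)
    (fun (z : Fin m × Fin n) => fun x => - x (.inl z)) 1
    ((Finset.univ : Finset (Fin m × Fin n)).toList) (by
      intro z _ H
      refine ⟨[fun x => - x (.inl z)], ?_, AvX.last _ _ _⟩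
      refine Blk.op .sub (fun _ => 0) (fun x => x (.inl z)) _
        (AvX.zero _ _ _ fun _ _ => rfl) (AvX.input _ _ _) (by simp) (fun x _ => ?_) ?_
      · show - x (.inl z) = 0 - x (.inl z)
        rw [zero_sub]
      · have := (S1.psum (m := m) (n := n) {Sum.inl z}).neg.s2
        simpa using this)
  obtain ⟨H3, b3, a3⟩ := Blk.fam (P := S2) (X := (Set.univ : Set (Id3 m n → ℝ)))
    (G := [] ++ H1 ++ H2)
    (fun (r : Fin m) => fun x => ∑ c, x (.inl (r, c))) n (List.finRange m) (by
      intro r _ H
      obtain ⟨H', b, av⟩ := psum_row Set.univ r Finset.univ ([] ++ H1 ++ H2 ++ H)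
      refine ⟨H', ?_, av⟩
      simpa using b)
  obtain ⟨H4, b4, a4⟩ := psum_obj (m := m) (n := n) Set.univ Finset.univ ([] ++ H1 ++ H2 ++ H3)
  refine ⟨H1 ++ H2 ++ H3 ++ H4, ?_, ?_⟩
  · have b := ((b1.trans b2).trans (by rw [← List.append_assoc]; exact b3)).trans
      (by rw [← List.append_assoc, ← List.append_assoc]; exact b4)
    refine b.mono ?_
    rw [List.length_finRange, Finset.length_toList, Finset.card_univ, Finset.card_univ,
      Fintype.card_prod, Fintype.card_fin, Fintype.card_fin]
    apply le_of_eq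
    ring
  · have hdd : ∀ x ∈ (Set.univ : Set (Id3 m n → ℝ)), dd (wL x) (ext (b0 m n)) ≠ 0 :=
      fun x _ => by rw [dd_base]; exact one_ne_zero
    simp only [List.nil_append] at a1 a2 a3 a4
    intro i y
    have hcongr : ∀ x ∈ (Set.univ : Set (Id3 m n → ℝ)), tf (b0 m n) i y x = wL x i y :=
      fun x _ => tb_base x i y
    rcases y with _ | _ | r' | _ | c
    · rcases i with _ | r
      · exact AvX.zero _ _ _ fun x hx => hcongr x hx
      · exact ((((a1 r (List.mem_finRange r)).append H2).append H3).append H4).congr hcongr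
    · exact av_basic hdd i _ ⟨none, rfl⟩
    · exact av_basic hdd i _ ⟨some r', rfl⟩
    · rcases i with _ | r
      · exact a4.congr hcongr
      · exact ((a3 r (List.mem_finRange r)).append H4).congr hcongr
    · rcases i with _ | r
      · exact (AvX.input (Set.univ : Set (Id3 m n → ℝ)) (H1 ++ H2 ++ H3 ++ H4)
          (.inr (.inr c) : Id3 m n)).congr hcongr
      · exact (((a2 (r, c) (by simp)).append H3).append H4).congr hcongr

end Pool.Agent.N597.CT
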