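import Mathlib

set_option autoImplicit false

/-!
# Tableaux of a real matrix

For a matrix `w` with rows `R` and columns `K` and a tuple `β : R → K` of columns, `tb w β i x` is
the entry of the tableau of `β` in row `i` and column `x`.
-/

namespace Pool.Agent.N597.CT

open Matrix Function

variable {R K : Type*} [Fintype R] [DecidableEq R]

/-- The maximal minor of `w` with the columns `β`. -/
noncomputable def dd (w : Matrix R K ℝ) (β : R → K) : ℝ := (Matrix.of fun i j => w i (β j)).det

lemma dd_update (w : Matrix R K ℝ) (β : R → K) (i : R) (x : K) :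
    dd w (update β i x) = cramer (Matrix.of fun r j => w r (β j)) (fun r => w r x) i := by
  rw [cramer_apply]
  unfold dd
  congr 1
  ext r j
  by_cases h : j = i
  · subst h
    simp
  · simp [h]

lemma dd_lin (w : Matrix R K ℝ) (β : R → K) (i : R) {ι : Type*} (s : Finset ι) (a : ι → ℝ)
    (y : ι → K) (x : K) (h : ∀ r, w r x = ∑ k ∈ s, a k * w r (y k)) :
    dd w (update β i x) = ∑ k ∈ s, a k * dd w (update β i (y k)) := by
  have h1 : (fun r => w r x) = ∑ k ∈ s, a k • (fun r => w r (y k)) := by
    ext r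
    rw [h r]
    simp
  rw [dd_update, h1]
  simp only [map_smul, map_sum, Pi.smul_apply, Finset.sum_apply, smul_eq_mul]
  refine Finset.sum_congr rfl fun k _ => ?_
  rw [dd_update]

lemma sum_dd (w : Matrix R K ℝ) (β : R → K) (x : K) (r : R) :
    dd w β * w r x = ∑ j, dd w (update β j x) * w r (β j) := by
  have h := mulVec_cramer (Matrix.of fun r j => w r (β j)) (fun r => w r x)
  have h2 := congrFun h r
  simp only [mulVec, dotProduct, Pi.smul_apply, smul_eq_mul, of_apply] at h2
  unfold dd at *
  rw [← h2]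
  refine Finset.sum_congr rfl fun j _ => ?_
  rw [← dd_update]
  unfold dd
  ring

lemma dd_eq_zero (w : Matrix R K ℝ) (β : R → K) {i j : R} (hij : i ≠ j) (h : β i = β j) :
    dd w β = 0 := by
  unfold dd
  exact det_zero_of_column_eq hij (fun k => by simp [h])

lemma inj_of_ne (w : Matrix R K ℝ) (β : R → K) (h : dd w β ≠ 0) : Injective β := by
  intro i j hij
  by_contra hne
  exact h (dd_eq_zero w β hne hij)

/-- Entries of the tableau. -/
noncomputable def tb (w : Matrix R K ℝ) (β : R → K) (i : R) (x : K) : ℝ :=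
  dd w (update β i x) / dd w β

lemma tb_self (w : Matrix R K ℝ) (β : R → K) (h : dd w β ≠ 0) (i j : R) :
    tb w β i (β j) = if i = j then 1 else 0 := by
  unfold tb
  split_ifs with hij
  · subst hij
    rw [update_eq_self, div_self h]
  · rw [dd_eq_zero w (update β i (β j)) hij (by simp [Ne.symm hij]), zero_div]

lemma tb_lin (w : Matrix R K ℝ) (β : R → K) (i : R) {ι : Type*} (s : Finset ι) (a : ι → ℝ)
    (y : ι → K) (x : K) (h : ∀ r, w r x = ∑ k ∈ s, a k * w r (y k)) :
    tb w β i x = ∑ k ∈ s, a k * tb w β i (y k) := by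
  unfold tb
  rw [dd_lin w β i s a y x h, Finset.sum_div]
  exact Finset.sum_congr rfl fun k _ => by ring

lemma tb_exp (w : Matrix R K ℝ) (β : R → K) (h : dd w β ≠ 0) (r : R) (x : K) :
    w r x = ∑ j, tb w β j x * w r (β j) := by
  have h1 := sum_dd w β x r
  have h2 : w r x = (∑ j, dd w (update β j x) * w r (β j)) / dd w β := by
    rw [← h1]
    field_simp
  rw [h2, Finset.sum_div]
  exact Finset.sum_congr rfl fun k _ => by unfold tb; ring

/-- The orthogonality relation between the column `x` of the tableau of `β` and the row `i` of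
the tableau of `γ`. -/
lemma tb_orth (w : Matrix R K ℝ) (β γ : R → K) (h : dd w β ≠ 0) (i : R) (x : K) :
    tb w γ i x = ∑ j, tb w β j x * tb w γ i (β j) :=
  tb_lin w γ i Finset.univ _ _ x fun r => tb_exp w β h r x

lemma pivot_mul (w : Matrix R K ℝ) (β : R → K) (p : R) (x0 y : K) (h : dd w β ≠ 0)
    (h' : dd w (update β p x0) ≠ 0) :
    tb w β p y = tb w (update β p x0) p y * tb w β p x0 := by
  rw [tb_orth w (update β p x0) β h' p y, Finset.sum_eq_single p]
  · rw [update_self]
  · intro j _ hj
    rw [update_of_ne hj, tb_self w β h, if_neg (Ne.symm hj), mul_zero]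
  · intro hp
    exact absurd (Finset.mem_univ p) hp

lemma tb_ne (w : Matrix R K ℝ) (β : R → K) (p : R) (x0 : K) (h : dd w β ≠ 0) :
    tb w β p x0 ≠ 0 ↔ dd w (update β p x0) ≠ 0 := by
  unfold tb
  constructor
  · intro h1 h2
    rw [h2, zero_div] at h1
    exact h1 rfl
  · intro h1
    exact div_ne_zero h1 h

lemma pivot_row (w : Matrix R K ℝ) (β : R → K) (p : R) (x0 y : K) (h : dd w β ≠ 0)
    (h' : tb w β p x0 ≠ 0) :
    tb w (update β p x0) p y = tb w β p y / tb w β p x0 := by
  rw [pivot_mul w β p x0 y h ((tb_ne w β p x0 h).1 h')]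
  field_simp

lemma pivot_other (w : Matrix R K ℝ) (β : R → K) (p i : R) (hi : i ≠ p) (x0 y : K)
    (h : dd w β ≠ 0) (h' : tb w β p x0 ≠ 0) :
    tb w (update β p x0) i y = tb w β i y - tb w β i x0 * tb w (update β p x0) p y := by
  have h2 := tb_orth w (update β p x0) β ((tb_ne w β p x0 h).1 h') i y
  rw [← Finset.add_sum_erase _ _ (Finset.mem_univ p), update_self] at h2
  have h3 : ∑ j ∈ Finset.univ.erase p, tb w (update β p x0) j y *
      tb w β i (update β p x0 j) = tb w (update β p x0) i y := by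
    rw [Finset.sum_eq_single i]
    · rw [update_of_ne hi, tb_self w β h, if_pos rfl, mul_one]
    · intro j hj hji
      rw [update_of_ne (Finset.ne_of_mem_erase hj), tb_self w β h, if_neg (Ne.symm hji), mul_zero]
    · intro hi'
      exact absurd (Finset.mem_erase.2 ⟨hi, Finset.mem_univ i⟩) hi'
  rw [h3] at h2
  rw [h2]
  ring

lemma dd_perm (w : Matrix R K ℝ) (β : R → K) (π : Equiv.Perm R) :
    dd w (β ∘ π) = ((Equiv.Perm.sign π : ℤ) : ℝ) * dd w β := by
  unfold dd
  rw [← det_permute']
  rfl

lemma dd_perm_ne (w : Matrix R K ℝ) (β : R → K) (π : Equiv.Perm R) :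
    dd w (β ∘ π) ≠ 0 ↔ dd w β ≠ 0 := by
  rw [dd_perm]
  have : ((Equiv.Perm.sign π : ℤ) : ℝ) ≠ 0 := by
    have h := (Equiv.Perm.sign π).ne_zero
    exact_mod_cast h
  constructor
  · intro h h2
    exact h (by rw [h2, mul_zero])
  · intro h
    exact mul_ne_zero this h

lemma tb_perm (w : Matrix R K ℝ) (β : R → K) (π : Equiv.Perm R) (h : dd w β ≠ 0) (i : R) (x : K) :
    tb w (β ∘ π) i x = tb w β (π i) x := by
  rw [tb_orth w β (β ∘ π) h i x, Finset.sum_eq_single (π i)]
  · have : β (π i) = (β ∘ π) i := rfl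
    rw [this, tb_self w _ ((dd_perm_ne w β π).2 h), if_pos rfl, mul_one]
  · intro j _ hj
    have : β j = (β ∘ π) (π.symm j) := by simp
    rw [this, tb_self w _ ((dd_perm_ne w β π).2 h), if_neg, mul_zero]
    intro h2
    apply hj
    rw [h2]
    simp
  · intro hp
    exact absurd (Finset.mem_univ _) hp

end Pool.Agent.N597.CT
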